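import Pool.Agent.Lib.MP_f04ccf_co.B.Ev

/-!
The checker: a polynomial is positive on the part of the unit cube where finitely many polynomials are
nonnegative.
-/

set_option autoImplicit false

namespace Pool.Agent.Lib.MP_f04ccf_co.Bern

open Finset

/-- a polynomial: the coefficients `X` (places of `w` bits) minus the constant `M` -/
structure Pl where
  w : ℕ
  ds : List ℕ
  M : ℕ
  X : ℕ

/-- the value -/
def val (P : Pl) (x : ℕ → ℝ) : ℝ :=
  ev P.ds (fun p => ((P.X / 2 ^ (P.w * p) % 2 ^ P.w : ℕ) : ℝ)) x - P.M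

/-- the left half -/
def pL (v : ℕ) (P : Pl) : Pl :=
  ⟨P.w, P.ds, Nat.shiftLeft P.M (str P.ds v).2,
    lN P.w (str P.ds v).1 (str P.ds v).2 (len P.ds) (str P.ds v).2 0 P.X⟩

/-- the right half -/
def pR (v : ℕ) (P : Pl) : Pl :=
  ⟨P.w, P.ds, Nat.shiftLeft P.M (str P.ds v).2,
    rN P.w (str P.ds v).1 (str P.ds v).2 (len P.ds) (str P.ds v).2 P.X⟩

/-- some polynomial of the list is negative -/
def anyl : List Pl → Bool
  | [] => false
  | g :: G => alll g.w (len g.ds) g.M g.X || anyl G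

/-- the checker, `vs` the variables which are halved one after the other -/
def chk : List ℕ → Pl → List Pl → Bool
  | [], P, G => allg P.w (len P.ds) P.M P.X || anyl G
  | v :: vs, P, G => allg P.w (len P.ds) P.M P.X || (anyl G ||
      (chk vs (pL v P) (G.map (pL v)) && chk vs (pR v P) (G.map (pR v))))

/-- the places are `f`, smaller than `2 ^ b` -/
structure Rep (b : ℕ) (P : Pl) (f : ℕ → ℕ) : Prop where
  w0 : 0 < P.w
  fb : ∀ p, f p < 2 ^ b
  f0 : ∀ p, len P.ds ≤ p → f p = 0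
  Mb : P.M < 2 ^ b
  eq : P.X = pk P.w f (len P.ds)

/-- enough bits for the halvings `vs` -/
def bud (ds : List ℕ) : List ℕ → ℕ
  | [] => 0
  | v :: vs => (str ds v).2 + bud ds vs

lemma pk_dig {w : ℕ} {f : ℕ → ℕ} {N p : ℕ} (hf : ∀ p, f p < 2 ^ w) (hp : p < N) :
    pk w f N / 2 ^ (w * p) % 2 ^ w = f p := by
  obtain ⟨m, rfl⟩ := Nat.exists_eq_add_of_lt hp
  have e : p + m + 1 = p + (1 + m) := by ring
  rw [e, pk_append, Nat.add_mul_div_left _ _ (by positivity),
    Nat.div_eq_of_lt (pk_lt fun q _ => hf q), zero_add, pk_append, mul_one, Nat.add_mul_mod_self_left]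
  have e2 : pk w (fun q => f (p + q)) 1 = f p := by simp [pk]
  rw [e2, Nat.mod_eq_of_lt (hf p)]

lemma Rep.val {b : ℕ} {P : Pl} {f : ℕ → ℕ} (h : Rep b P f) (hb : b ≤ P.w) (x : ℕ → ℝ) :
    val P x = ev P.ds (fun p => (f p : ℝ)) x - P.M := by
  have h1 : ev P.ds (fun p => ((P.X / 2 ^ (P.w * p) % 2 ^ P.w : ℕ) : ℝ)) x
      = ev P.ds (fun p => (f p : ℝ)) x := ev_congr fun p hp => by
    rw [h.eq, pk_dig (fun q => (h.fb q).trans_le (Nat.pow_le_pow_right (by omega) hb)) hp]
  unfold Bern.val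
  rw [h1]

/-- the bits are enough -/
def Ok (vs : List ℕ) (P : Pl) : Prop := ∃ b f, Rep b P f ∧ b + bud P.ds vs + 1 ≤ P.w

lemma mul_lt_of {b d c m : ℕ} (h : c < 2 ^ b) (hm : m ≤ 2 ^ d * c) : m < 2 ^ (b + d) := by
  calc m ≤ 2 ^ d * c := hm
    _ < 2 ^ d * 2 ^ b := Nat.mul_lt_mul_of_pos_left h (by positivity)
    _ = 2 ^ (b + d) := by rw [← pow_add]; congr 1; ring

lemma le_pred {b : ℕ} {f : ℕ → ℕ} (h : ∀ p, f p < 2 ^ b) (q : ℕ) : f q ≤ 2 ^ b - 1 := by
  have := h q
  omega

lemma Ok.L {v : ℕ} {vs : List ℕ} {P : Pl} (h : Ok (v :: vs) P) :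
    Ok vs (pL v P) ∧ ∀ x, val (pL v P) x
      = 2 ^ (str P.ds v).2 * val P (Function.update x v (x v / 2)) := by
  obtain ⟨b, f, h, hb⟩ := h
  have hb' : b + ((str P.ds v).2 + bud P.ds vs) + 1 ≤ P.w := hb
  obtain ⟨m, hm⟩ := str_len P.ds v
  set s := (str P.ds v).1 with hs
  set d := (str P.ds v).2 with hd
  have hX : lN P.w s d (len P.ds) d 0 P.X = pk P.w (lF s d d 0 f) (len P.ds) := by
    have h0 : ∀ p, s * (d + 1) * m ≤ p → f p = 0 := fun p hp => h.f0 p (by rw [hm]; exact hp)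
    rw [h.eq, hm]
    exact lN_eq h.w0 (str_pos _ _) d b 0 f _ (by omega) (by omega) h.fb le_rfl h0
  have hpos : 0 < 2 ^ b := by positivity
  have hbd : ∀ p, lF s d d 0 f p < 2 ^ (b + d) := fun p =>
    mul_lt_of (c := 2 ^ b - 1) (by omega) (lF_bd d 0 _ f p (le_pred h.fb)).2
  have hR : Rep (b + d) (pL v P) (fun p => if p < len P.ds then lF s d d 0 f p else 0) := by
    refine ⟨h.w0, fun p => ?_, fun p hp => if_neg (Nat.not_lt.2 hp), ?_, ?_⟩
    · show (if p < len P.ds then lF s d d 0 f p else 0) < _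
      split_ifs
      · exact hbd p
      · positivity
    · show P.M <<< d < _
      rw [Nat.shiftLeft_eq, mul_comm]
      exact mul_lt_of h.Mb le_rfl
    · show lN P.w s d (len P.ds) d 0 P.X = _
      rw [hX]
      exact pk_congr fun p hp => (if_pos hp).symm
  refine ⟨⟨b + d, _, hR, ?_⟩, fun x => ?_⟩
  · show b + d + bud P.ds vs + 1 ≤ P.w
    omega
  · rw [hR.val (show b + d ≤ P.w by omega), h.val (by omega)]
    have h1 : ev P.ds (fun p => (((if p < len P.ds then lF s d d 0 f p else 0 : ℕ)) : ℝ)) x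
        = ev P.ds (lF s d d 0 fun p => (f p : ℝ)) x := ev_congr fun p hp => by
      rw [if_pos hp, lF_cast]
    have h2 : ((pL v P).M : ℝ) = 2 ^ d * P.M := by
      show ((P.M <<< d : ℕ) : ℝ) = _
      rw [Nat.shiftLeft_eq]
      push_cast
      ring
    rw [h2]
    show ev P.ds _ x - _ = _
    rw [h1, hs, hd, ev_L, mul_sub]

lemma Ok.R {v : ℕ} {vs : List ℕ} {P : Pl} (h : Ok (v :: vs) P) :
    Ok vs (pR v P) ∧ ∀ x, val (pR v P) x
      = 2 ^ (str P.ds v).2 * val P (Function.update x v ((1 + x v) / 2)) := by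
  obtain ⟨b, f, h, hb⟩ := h
  have hb' : b + ((str P.ds v).2 + bud P.ds vs) + 1 ≤ P.w := hb
  obtain ⟨m, hm⟩ := str_len P.ds v
  set s := (str P.ds v).1 with hs
  set d := (str P.ds v).2 with hd
  have hX : rN P.w s d (len P.ds) d P.X = pk P.w (rF s d d f) (len P.ds) := by
    have h0 : ∀ p, s * (d + 1) * m ≤ p → f p = 0 := fun p hp => h.f0 p (by rw [hm]; exact hp)
    rw [h.eq, hm]
    exact rN_eq h.w0 (str_pos _ _) d b f le_rfl (by omega) h.fb h0
  have hpos : 0 < 2 ^ b := by positivity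
  have hbd : ∀ p, rF s d d f p < 2 ^ (b + d) := fun p =>
    mul_lt_of (c := 2 ^ b - 1) (by omega) (rF_bd d _ f p (le_pred h.fb)).2
  have hR : Rep (b + d) (pR v P) (fun p => if p < len P.ds then rF s d d f p else 0) := by
    refine ⟨h.w0, fun p => ?_, fun p hp => if_neg (Nat.not_lt.2 hp), ?_, ?_⟩
    · show (if p < len P.ds then rF s d d f p else 0) < _
      split_ifs
      · exact hbd p
      · positivity
    · show P.M <<< d < _
      rw [Nat.shiftLeft_eq, mul_comm]
      exact mul_lt_of h.Mb le_rfl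
    · show rN P.w s d (len P.ds) d P.X = _
      rw [hX]
      exact pk_congr fun p hp => (if_pos hp).symm
  refine ⟨⟨b + d, _, hR, ?_⟩, fun x => ?_⟩
  · show b + d + bud P.ds vs + 1 ≤ P.w
    omega
  · rw [hR.val (show b + d ≤ P.w by omega), h.val (by omega)]
    have h1 : ev P.ds (fun p => (((if p < len P.ds then rF s d d f p else 0 : ℕ)) : ℝ)) x
        = ev P.ds (rF s d d fun p => (f p : ℝ)) x := ev_congr fun p hp => by
      rw [if_pos hp, rF_cast]
    have h2 : ((pR v P).M : ℝ) = 2 ^ d * P.M := by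
      show ((P.M <<< d : ℕ) : ℝ) = _
      rw [Nat.shiftLeft_eq]
      push_cast
      ring
    rw [h2]
    show ev P.ds _ x - _ = _
    rw [h1, hs, hd, ev_R, mul_sub]

lemma Ok.pos {vs : List ℕ} {P : Pl} (h : Ok vs P) (ha : allg P.w (len P.ds) P.M P.X = true)
    {x : ℕ → ℝ} (hx : ∀ j, 0 ≤ x j ∧ x j ≤ 1) : 0 < val P x := by
  obtain ⟨b, f, h, hb⟩ := h
  rw [h.val (by omega)]
  rw [h.eq] at ha
  have h1 : 2 ^ b ≤ 2 ^ (P.w - 1) := Nat.pow_le_pow_right (by omega) (by omega)
  have h2 := allg_sound h.w0 (fun p => (h.fb p).trans_le h1) (h.Mb.trans_le h1) ha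
  have h3 : (P.M : ℝ) + 1 ≤ ev P.ds (fun p => (f p : ℝ)) x := ev_ge hx fun p hp => by
    exact_mod_cast h2 p hp
  linarith

lemma Ok.neg {vs : List ℕ} {P : Pl} (h : Ok vs P) (ha : alll P.w (len P.ds) P.M P.X = true)
    {x : ℕ → ℝ} (hx : ∀ j, 0 ≤ x j ∧ x j ≤ 1) : val P x < 0 := by
  obtain ⟨b, f, h, hb⟩ := h
  rw [h.val (by omega)]
  rw [h.eq] at ha
  have h1 : 2 ^ b ≤ 2 ^ (P.w - 1) := Nat.pow_le_pow_right (by omega) (by omega)
  have h2 := alll_sound h.w0 (fun p => (h.fb p).trans_le h1) (h.Mb.trans_le h1) ha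
  have h3 : ev P.ds (fun p => (f p : ℝ)) x ≤ (P.M : ℝ) - 1 := ev_le hx fun p hp => by
    have : f p + 1 ≤ P.M := h2 p hp
    have h4 : ((f p + 1 : ℕ) : ℝ) ≤ (P.M : ℝ) := by exact_mod_cast this
    push_cast at h4
    linarith
  linarith

lemma anyl_sound {vs : List ℕ} {x : ℕ → ℝ} (hx : ∀ j, 0 ≤ x j ∧ x j ≤ 1) :
    ∀ {G : List Pl}, (∀ g ∈ G, Ok vs g) → anyl G = true → ∃ g ∈ G, val g x < 0
  | [], _, h => by simp [anyl] at h
  | g :: G, hG, h => by
    unfold anyl at h
    rcases Bool.or_eq_true_iff.1 h with h1 | h1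
    · exact ⟨g, List.mem_cons_self, (hG g List.mem_cons_self).neg h1 hx⟩
    · obtain ⟨g', h2, h3⟩ := anyl_sound hx (fun g hg => hG g (List.mem_cons_of_mem _ hg)) h1
      exact ⟨g', List.mem_cons_of_mem _ h2, h3⟩

/-- **the checker is sound** -/
theorem chk_sound : ∀ (vs : List ℕ) (P : Pl) (G : List Pl), Ok vs P → (∀ g ∈ G, Ok vs g) →
    chk vs P G = true → ∀ x : ℕ → ℝ, (∀ j, 0 ≤ x j ∧ x j ≤ 1) → (∀ g ∈ G, 0 ≤ val g x) →
    0 < val P x := by
  intro vs
  induction vs with
  | nil =>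
    intro P G hP hG h x hx hg
    rcases Bool.or_eq_true_iff.1 h with h1 | h1
    · exact hP.pos h1 hx
    · obtain ⟨g, h2, h3⟩ := anyl_sound hx hG h1
      exact absurd (hg g h2) (not_le.2 h3)
  | cons v vs ih =>
    intro P G hP hG h x hx hg
    rcases Bool.or_eq_true_iff.1 h with h1 | h1
    · exact hP.pos h1 hx
    rcases Bool.or_eq_true_iff.1 h1 with h1 | h1
    · obtain ⟨g, h2, h3⟩ := anyl_sound hx hG h1
      exact absurd (hg g h2) (not_le.2 h3)
    obtain ⟨hL, hR⟩ := Bool.and_eq_true_iff.1 h1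
    by_cases hv : x v ≤ 1 / 2
    · -- the left half
      have hx' : ∀ j, 0 ≤ Function.update x v (2 * x v) j ∧ Function.update x v (2 * x v) j ≤ 1 := by
        intro j
        by_cases hj : j = v
        · subst hj
          rw [Function.update_self]
          exact ⟨by linarith [(hx j).1], by linarith⟩
        · rw [Function.update_of_ne hj]
          exact hx j
      have hu : Function.update (Function.update x v (2 * x v)) v
          (Function.update x v (2 * x v) v / 2) = x := by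
        rw [Function.update_self, Function.update_idem]
        have : 2 * x v / 2 = x v := by ring
        rw [this, Function.update_eq_self]
      have h2 := ih (pL v P) (G.map (pL v)) hP.L.1 (fun g hg' => by
        obtain ⟨g', h3, rfl⟩ := List.mem_map.1 hg'
        exact (hG g' h3).L.1) hL _ hx' fun g hg' => by
        obtain ⟨g', h3, rfl⟩ := List.mem_map.1 hg'
        rw [(hG g' h3).L.2, hu]
        exact mul_nonneg (by positivity) (hg g' h3)
      rw [hP.L.2, hu] at h2
      exact (pos_iff_pos_of_mul_pos h2).1 (by positivity)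
    · have hx' : ∀ j, 0 ≤ Function.update x v (2 * x v - 1) j
          ∧ Function.update x v (2 * x v - 1) j ≤ 1 := by
        intro j
        by_cases hj : j = v
        · subst hj
          rw [Function.update_self]
          exact ⟨by linarith [not_le.1 hv], by linarith [(hx j).2]⟩
        · rw [Function.update_of_ne hj]
          exact hx j
      have hu : Function.update (Function.update x v (2 * x v - 1)) v
          ((1 + Function.update x v (2 * x v - 1) v) / 2) = x := by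
        rw [Function.update_self, Function.update_idem]
        have : (1 + (2 * x v - 1)) / 2 = x v := by ring
        rw [this, Function.update_eq_self]
      have h2 := ih (pR v P) (G.map (pR v)) hP.R.1 (fun g hg' => by
        obtain ⟨g', h3, rfl⟩ := List.mem_map.1 hg'
        exact (hG g' h3).R.1) hR _ hx' fun g hg' => by
        obtain ⟨g', h3, rfl⟩ := List.mem_map.1 hg'
        rw [(hG g' h3).R.2, hu]
        exact mul_nonneg (by positivity) (hg g' h3)
      rw [hP.R.2, hu] at h2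
      exact (pos_iff_pos_of_mul_pos h2).1 (by positivity)

end Pool.Agent.Lib.MP_f04ccf_co.Bern
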