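import Pool.Agent.Lib.MP_f04ccf_co.B.Pk

/-!
The polynomial with the Bernstein coefficients `f p` (places of a packed number), and the theorem of
de Casteljau: the halves `lF`, `rF` are the coefficients of the two halves of the box.
-/

set_option autoImplicit false

namespace Pool.Agent.Lib.MP_f04ccf_co.Bern

open Finset

/-- the polynomial of degree `d` with the Bernstein coefficients `c 0, .., c d` -/
def cas (y : ℝ) : ℕ → (ℕ → ℝ) → ℝ
  | 0, c => c 0
  | d + 1, c => (1 - y) * cas y d c + y * cas y d fun i => c (i + 1)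

lemma cas_congr {y : ℝ} : ∀ {d : ℕ} {c e : ℕ → ℝ}, (∀ i ≤ d, c i = e i) → cas y d c = cas y d e
  | 0, c, e, h => h 0 le_rfl
  | d + 1, c, e, h => by
    unfold cas
    rw [cas_congr fun i hi => h i (by omega),
      cas_congr (d := d) (c := fun i => c (i + 1)) (e := fun i => e (i + 1))
        fun i hi => h (i + 1) (by omega)]

lemma cas_add {y : ℝ} : ∀ {d : ℕ} {c e : ℕ → ℝ},
    cas y d (fun i => c i + e i) = cas y d c + cas y d e
  | 0, c, e => rfl
  | d + 1, c, e => by
    unfold cas
    rw [cas_add, cas_add (d := d) (c := fun i => c (i + 1)) (e := fun i => e (i + 1))]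
    ring

lemma cas_mul {y a : ℝ} : ∀ {d : ℕ} {c : ℕ → ℝ}, cas y d (fun i => a * c i) = a * cas y d c
  | 0, c => rfl
  | d + 1, c => by
    unfold cas
    rw [cas_mul, cas_mul (d := d) (c := fun i => c (i + 1))]
    ring

lemma cas_ge {y m : ℝ} (h0 : 0 ≤ y) (h1 : y ≤ 1) : ∀ {d : ℕ} {c : ℕ → ℝ}, (∀ i ≤ d, m ≤ c i) →
    m ≤ cas y d c
  | 0, c, h => h 0 le_rfl
  | d + 1, c, h => by
    have e1 : m ≤ cas y d c := cas_ge h0 h1 fun i hi => h i (by omega)
    have e2 : m ≤ cas y d fun i => c (i + 1) := cas_ge h0 h1 fun i hi => h (i + 1) (by omega)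
    unfold cas
    nlinarith [mul_le_mul_of_nonneg_left e1 (sub_nonneg.2 h1), mul_le_mul_of_nonneg_left e2 h0]

lemma cas_le {y m : ℝ} (h0 : 0 ≤ y) (h1 : y ≤ 1) : ∀ {d : ℕ} {c : ℕ → ℝ}, (∀ i ≤ d, c i ≤ m) →
    cas y d c ≤ m
  | 0, c, h => h 0 le_rfl
  | d + 1, c, h => by
    have e1 : cas y d c ≤ m := cas_le h0 h1 fun i hi => h i (by omega)
    have e2 : (cas y d fun i => c (i + 1)) ≤ m := cas_le h0 h1 fun i hi => h (i + 1) (by omega)
    unfold cas
    nlinarith [mul_le_mul_of_nonneg_left e1 (sub_nonneg.2 h1), mul_le_mul_of_nonneg_left e2 h0]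

/-- `(1 + E) ^ k c`, `E` the shift -/
def tr : ℕ → (ℕ → ℝ) → ℕ → ℝ
  | 0, c, j => c j
  | k + 1, c, j => tr k c j + tr k c (j + 1)

lemma tr_shift : ∀ (k : ℕ) (c : ℕ → ℝ) (j : ℕ), tr k c (j + 1) = tr k (fun i => c (i + 1)) j
  | 0, _, _ => rfl
  | k + 1, c, j => by
    unfold tr
    rw [tr_shift k c j, tr_shift k c (j + 1)]

lemma tr_succ' : ∀ (k : ℕ) (c : ℕ → ℝ) (j : ℕ),
    tr k (fun i => c i + c (i + 1)) j = tr (k + 1) c j
  | 0, _, _ => rfl
  | k + 1, c, j => by
    show tr k (fun i => c i + c (i + 1)) j + tr k (fun i => c i + c (i + 1)) (j + 1)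
      = tr (k + 1) c j + tr (k + 1) c (j + 1)
    rw [tr_succ' k c j, tr_succ' k c (j + 1)]

lemma tr_add : ∀ (k : ℕ) (c e : ℕ → ℝ) (j : ℕ),
    tr k (fun i => c i + e i) j = tr k c j + tr k e j
  | 0, _, _, _ => rfl
  | k + 1, c, e, j => by
    unfold tr
    rw [tr_add k c e j, tr_add k c e (j + 1)]
    ring

/-- the right half in one variable -/
lemma cas_R {y : ℝ} : ∀ (d : ℕ) (c : ℕ → ℝ),
    cas y d (fun i => 2 ^ i * tr (d - i) c i) = 2 ^ d * cas ((1 + y) / 2) d c
  | 0, c => by simp [cas, tr]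
  | d + 1, c => by
    have h1 : cas y d (fun i => 2 ^ i * tr (d + 1 - i) c i)
        = cas y d fun i => 2 ^ i * tr (d - i) (fun i => c i + c (i + 1)) i :=
      cas_congr fun i hi => by
        rw [tr_succ']
        congr 2
        omega
    have h2 : cas y d (fun i => 2 ^ (i + 1) * tr (d + 1 - (i + 1)) c (i + 1))
        = 2 * cas y d fun i => 2 ^ i * tr (d - i) (fun i => c (i + 1)) i := by
      rw [← cas_mul]
      exact cas_congr fun i hi => by
        rw [tr_shift, pow_succ]
        have : d + 1 - (i + 1) = d - i := by omega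
        rw [this]
        ring
    show (1 - y) * cas y d (fun i => 2 ^ i * tr (d + 1 - i) c i)
      + y * cas y d (fun i => 2 ^ (i + 1) * tr (d + 1 - (i + 1)) c (i + 1)) = _
    rw [h1, h2, cas_R d, cas_R d, cas_add]
    show _ = 2 ^ (d + 1) * ((1 - (1 + y) / 2) * cas ((1 + y) / 2) d c
      + (1 + y) / 2 * cas ((1 + y) / 2) d fun i => c (i + 1))
    ring

/-- the left half in one variable -/
lemma cas_L {y : ℝ} : ∀ (d : ℕ) (c : ℕ → ℝ),
    cas y d (fun i => 2 ^ (d - i) * tr i c 0) = 2 ^ d * cas (y / 2) d c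
  | 0, c => by simp [cas, tr]
  | d + 1, c => by
    have h1 : cas y d (fun i => 2 ^ (d + 1 - i) * tr i c 0)
        = 2 * cas y d fun i => 2 ^ (d - i) * tr i c 0 := by
      rw [← cas_mul]
      exact cas_congr fun i hi => by
        have : d + 1 - i = d - i + 1 := by omega
        rw [this, pow_succ]
        ring
    have h2 : cas y d (fun i => 2 ^ (d + 1 - (i + 1)) * tr (i + 1) c 0)
        = cas y d fun i => 2 ^ (d - i) * tr i (fun i => c i + c (i + 1)) 0 :=
      cas_congr fun i hi => by
        rw [tr_succ']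
        congr 2
        omega
    show (1 - y) * cas y d (fun i => 2 ^ (d + 1 - i) * tr i c 0)
      + y * cas y d (fun i => 2 ^ (d + 1 - (i + 1)) * tr (i + 1) c 0) = _
    rw [h1, h2, cas_L d, cas_L d, cas_add]
    show _ = 2 ^ (d + 1) * ((1 - y / 2) * cas (y / 2) d c
      + y / 2 * cas (y / 2) d fun i => c (i + 1))
    ring

/-- the polynomial in several variables with the Bernstein coefficients `f p` -/
def ev : List ℕ → (ℕ → ℝ) → (ℕ → ℝ) → ℝ
  | [], f, _ => f 0
  | d :: ds, f, x => cas (x 0) d fun i => ev ds (fun p => f ((d + 1) * p + i)) fun j => x (j + 1)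

/-- the number of places -/
def len : List ℕ → ℕ
  | [] => 1
  | d :: ds => (d + 1) * len ds

/-- stride and degree of the variable `v` -/
def str : List ℕ → ℕ → ℕ × ℕ
  | [], _ => (1, 0)
  | d :: _, 0 => (1, d)
  | d :: ds, v + 1 => ((d + 1) * (str ds v).1, (str ds v).2)

lemma str_pos : ∀ (ds : List ℕ) (v : ℕ), 0 < (str ds v).1
  | [], _ => Nat.one_pos
  | _ :: _, 0 => Nat.one_pos
  | d :: ds, v + 1 => Nat.mul_pos (Nat.succ_pos d) (str_pos ds v)

lemma str_len : ∀ (ds : List ℕ) (v : ℕ), ∃ m, len ds = (str ds v).1 * ((str ds v).2 + 1) * m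
  | [], _ => ⟨1, rfl⟩
  | d :: ds, 0 => ⟨len ds, by simp [len, str]⟩
  | d :: ds, v + 1 => by
    obtain ⟨m, hm⟩ := str_len ds v
    refine ⟨m, ?_⟩
    simp only [len, str]
    rw [hm]
    ring

lemma ev_congr : ∀ {ds : List ℕ} {f g : ℕ → ℝ} {x : ℕ → ℝ}, (∀ p < len ds, f p = g p) →
    ev ds f x = ev ds g x
  | [], f, g, x, h => h 0 Nat.one_pos
  | d :: ds, f, g, x, h => by
    refine cas_congr fun i hi => ev_congr fun p hp => h _ ?_
    show (d + 1) * p + i < (d + 1) * len ds
    calc (d + 1) * p + i < (d + 1) * (p + 1) := by rw [Nat.mul_succ]; omega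
      _ ≤ (d + 1) * len ds := Nat.mul_le_mul_left _ hp

lemma ev_add : ∀ {ds : List ℕ} {f g : ℕ → ℝ} {x : ℕ → ℝ},
    ev ds (fun p => f p + g p) x = ev ds f x + ev ds g x
  | [], f, g, x => rfl
  | d :: ds, f, g, x => by
    unfold ev
    rw [← cas_add]
    exact cas_congr fun i _ => ev_add

lemma ev_mul {a : ℝ} : ∀ {ds : List ℕ} {f : ℕ → ℝ} {x : ℕ → ℝ},
    ev ds (fun p => a * f p) x = a * ev ds f x
  | [], f, x => rfl
  | d :: ds, f, x => by
    unfold ev
    rw [← cas_mul]
    exact cas_congr fun i _ => ev_mul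

lemma ev_ge {m : ℝ} : ∀ {ds : List ℕ} {f : ℕ → ℝ} {x : ℕ → ℝ}, (∀ j, 0 ≤ x j ∧ x j ≤ 1) →
    (∀ p < len ds, m ≤ f p) → m ≤ ev ds f x
  | [], f, x, _, h => h 0 Nat.one_pos
  | d :: ds, f, x, hx, h => by
    refine cas_ge (hx 0).1 (hx 0).2 fun i hi => ev_ge (fun j => hx (j + 1)) fun p hp => h _ ?_
    show (d + 1) * p + i < (d + 1) * len ds
    calc (d + 1) * p + i < (d + 1) * (p + 1) := by rw [Nat.mul_succ]; omega
      _ ≤ (d + 1) * len ds := Nat.mul_le_mul_left _ hp

lemma ev_le {m : ℝ} : ∀ {ds : List ℕ} {f : ℕ → ℝ} {x : ℕ → ℝ}, (∀ j, 0 ≤ x j ∧ x j ≤ 1) →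
    (∀ p < len ds, f p ≤ m) → ev ds f x ≤ m
  | [], f, x, _, h => h 0 Nat.one_pos
  | d :: ds, f, x, hx, h => by
    refine cas_le (hx 0).1 (hx 0).2 fun i hi => ev_le (fun j => hx (j + 1)) fun p hp => h _ ?_
    show (d + 1) * p + i < (d + 1) * len ds
    calc (d + 1) * p + i < (d + 1) * (p + 1) := by rw [Nat.mul_succ]; omega
      _ ≤ (d + 1) * len ds := Nat.mul_le_mul_left _ hp

lemma ev_tr {ds : List ℕ} {x : ℕ → ℝ} : ∀ (k : ℕ) (c : ℕ → ℕ → ℝ) (j : ℕ),
    ev ds (fun p => tr k (fun i => c i p) j) x = tr k (fun i => ev ds (c i) x) j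
  | 0, _, _ => rfl
  | k + 1, c, j => by
    unfold tr
    rw [ev_add, ev_tr k, ev_tr k]

/-! ### the halves in the first variable -/

lemma rF_blk1 {d P : ℕ} : ∀ (j : ℕ) (g : ℕ → ℝ) (i : ℕ), i ≤ d →
    rF 1 d j g ((d + 1) * P + i)
      = if i ≤ j then 2 ^ i * tr (j - i) (fun l => g ((d + 1) * P + l)) i else 0 := by
  have hk : ∀ i, i ≤ d → ((d + 1) * P + i) / 1 % (d + 1) = i := fun i hi => by
    rw [Nat.div_one, Nat.mul_add_mod, Nat.mod_eq_of_lt (by omega)]
  intro j
  induction j with
  | zero =>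
    intro g i hi
    unfold rF
    rw [hk i hi]
    rcases Nat.eq_zero_or_pos i with h | h
    · subst h
      simp [tr]
    · rw [if_neg (by omega), if_neg (by omega)]
  | succ j ih =>
    intro g i hi
    unfold rF
    rw [hk i hi, ih _ i hi]
    rcases lt_trichotomy i (j + 1) with h | h | h
    · rw [if_neg (by omega), if_pos (by omega), if_pos (by omega), zero_add]
      have e : j + 1 - i = j - i + 1 := by omega
      rw [e, ← tr_succ']
      rfl
    · subst h
      rw [if_pos rfl, if_neg (by omega), if_pos le_rfl, add_zero, Nat.sub_self]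
      rfl
    · rw [if_neg (by omega), if_neg (by omega), if_neg (by omega), add_zero]

lemma lF_blk1 {d P : ℕ} : ∀ (j k : ℕ) (g : ℕ → ℝ) (i : ℕ), i ≤ d →
    lF 1 d j k g ((d + 1) * P + i)
      = if k ≤ i ∧ i ≤ k + j then 2 ^ (k + j - i) * tr (i - k) (fun l => g ((d + 1) * P + l)) k
        else 0 := by
  have hk : ∀ i, i ≤ d → ((d + 1) * P + i) / 1 % (d + 1) = i := fun i hi => by
    rw [Nat.div_one, Nat.mul_add_mod, Nat.mod_eq_of_lt (by omega)]
  intro j
  induction j with
  | zero =>
    intro k g i hi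
    unfold lF
    rw [hk i hi]
    by_cases h : i = k
    · subst h
      simp [tr]
    · rw [if_neg h, if_neg (by omega)]
  | succ j ih =>
    intro k g i hi
    unfold lF
    rw [hk i hi, ih _ _ i hi]
    rcases lt_trichotomy i k with h | h | h
    · rw [if_neg (by omega), if_neg (by omega), if_neg (by omega), add_zero]
    · subst h
      rw [if_pos rfl, if_neg (by omega), if_pos (by omega), add_zero, Nat.sub_self]
      have e : i + (j + 1) - i = j + 1 := by omega
      rw [e]
      rfl
    · rw [if_neg (by omega), zero_add]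
      by_cases h2 : i ≤ k + (j + 1)
      · rw [if_pos (by omega), if_pos (by omega)]
        have e : i - k = i - (k + 1) + 1 := by omega
        have e2 : k + 1 + j - i = k + (j + 1) - i := by omega
        rw [e, ← tr_succ', tr_shift, e2]
        congr 2
        funext l
        have e3 : ¬ (d + 1) * P + (l + 1) < 1 := by omega
        have e4 : (d + 1) * P + (l + 1) - 1 = (d + 1) * P + l := by omega
        show g ((d + 1) * P + (l + 1)) + (if (d + 1) * P + (l + 1) < 1 then 0
          else g ((d + 1) * P + (l + 1) - 1)) = _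
        rw [if_neg e3, e4, add_comm]
      · rw [if_neg (by omega), if_neg (by omega)]

/-! ### the other variables -/

lemma blk_div {e s P i : ℕ} (hi : i ≤ e) : ((e + 1) * P + i) / ((e + 1) * s) = P / s := by
  rw [← Nat.div_div_eq_div_mul, Nat.mul_add_div (show 0 < e + 1 by omega),
    Nat.div_eq_of_lt (show i < e + 1 by omega), add_zero]

lemma rF_blk {e s d P i : ℕ} (hi : i ≤ e) : ∀ (j : ℕ) (g : ℕ → ℝ),
    rF ((e + 1) * s) d j g ((e + 1) * P + i) = rF s d j (fun Q => g ((e + 1) * Q + i)) P := by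
  intro j
  induction j with
  | zero =>
    intro g
    unfold rF
    rw [blk_div hi]
  | succ j ih =>
    intro g
    unfold rF
    rw [blk_div hi, ih]
    have e1 : (fun Q => g ((e + 1) * Q + i) + g ((e + 1) * Q + i + (e + 1) * s))
        = fun Q => g ((e + 1) * Q + i) + g ((e + 1) * (Q + s) + i) := by
      funext Q
      congr 2
      ring
    rw [e1]

lemma lF_blk {e s d P i : ℕ} (hi : i ≤ e) : ∀ (j k : ℕ) (g : ℕ → ℝ),
    lF ((e + 1) * s) d j k g ((e + 1) * P + i) = lF s d j k (fun Q => g ((e + 1) * Q + i)) P := by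
  intro j
  induction j with
  | zero =>
    intro k g
    unfold lF
    rw [blk_div hi]
  | succ j ih =>
    intro k g
    unfold lF
    rw [blk_div hi, ih]
    have e1 : (fun Q => g ((e + 1) * Q + i) + if (e + 1) * Q + i < (e + 1) * s then 0
          else g ((e + 1) * Q + i - (e + 1) * s))
        = fun Q => g ((e + 1) * Q + i) + if Q < s then 0 else g ((e + 1) * (Q - s) + i) := by
      funext Q
      by_cases h : Q < s
      · have h1 : (e + 1) * Q + i < (e + 1) * s := by
          calc (e + 1) * Q + i < (e + 1) * (Q + 1) := by rw [Nat.mul_succ]; omega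
            _ ≤ (e + 1) * s := Nat.mul_le_mul_left _ h
        rw [if_pos h, if_pos h1]
      · obtain ⟨m, rfl⟩ := Nat.exists_eq_add_of_le (Nat.le_of_not_lt h)
        have h1 : ¬ (e + 1) * (s + m) + i < (e + 1) * s := by
          rw [Nat.mul_add]
          omega
        have h2 : (e + 1) * (s + m) + i - (e + 1) * s = (e + 1) * m + i := by
          rw [Nat.mul_add]
          omega
        rw [if_neg h, if_neg h1, h2, Nat.add_sub_cancel_left]
    rw [e1]

/-- **the right half** -/
theorem ev_R : ∀ (ds : List ℕ) (v : ℕ) (f : ℕ → ℝ) (x : ℕ → ℝ),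
    ev ds (rF (str ds v).1 (str ds v).2 (str ds v).2 f) x
      = 2 ^ (str ds v).2 * ev ds f (Function.update x v ((1 + x v) / 2))
  | [], v, f, x => by simp [ev, str, rF]
  | d :: ds, 0, f, x => by
    show cas (x 0) d (fun i => ev ds (fun p => rF 1 d d f ((d + 1) * p + i)) fun j => x (j + 1)) = _
    have h1 : cas (x 0) d (fun i => ev ds (fun p => rF 1 d d f ((d + 1) * p + i))
          fun j => x (j + 1))
        = cas (x 0) d fun i => 2 ^ i * tr (d - i) (fun l => ev ds (fun p => f ((d + 1) * p + l))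
          fun j => x (j + 1)) i := by
      refine cas_congr fun i hi => ?_
      rw [← ev_tr, ← ev_mul]
      refine ev_congr fun p _ => ?_
      rw [rF_blk1 d f i hi, if_pos hi]
    rw [h1, cas_R]
    show _ = 2 ^ d * cas (Function.update x 0 ((1 + x 0) / 2) 0) d _
    rw [Function.update_self]
    rfl
  | d :: ds, v + 1, f, x => by
    show cas (x 0) d (fun i => ev ds (fun p => rF ((d + 1) * (str ds v).1) (str ds v).2
      (str ds v).2 f ((d + 1) * p + i)) fun j => x (j + 1)) = _
    have h1 : cas (x 0) d (fun i => ev ds (fun p => rF ((d + 1) * (str ds v).1) (str ds v).2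
          (str ds v).2 f ((d + 1) * p + i)) fun j => x (j + 1))
        = cas (x 0) d fun i => 2 ^ (str ds v).2 * ev ds (fun p => f ((d + 1) * p + i))
          (Function.update (fun j => x (j + 1)) v ((1 + x (v + 1)) / 2)) := by
      refine cas_congr fun i hi => ?_
      rw [← ev_R ds v]
      exact ev_congr fun p _ => rF_blk hi _ f
    rw [h1, cas_mul]
    show _ = 2 ^ (str ds v).2 * cas (Function.update x (v + 1) ((1 + x (v + 1)) / 2) 0) d _
    rw [Function.update_of_ne (Nat.succ_ne_zero v).symm]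
    congr 2
    funext i
    congr 1
    funext j
    by_cases h : j = v
    · subst h
      rw [Function.update_self, Function.update_self]
    · rw [Function.update_of_ne h, Function.update_of_ne (by omega)]

/-- **the left half** -/
theorem ev_L : ∀ (ds : List ℕ) (v : ℕ) (f : ℕ → ℝ) (x : ℕ → ℝ),
    ev ds (lF (str ds v).1 (str ds v).2 (str ds v).2 0 f) x
      = 2 ^ (str ds v).2 * ev ds f (Function.update x v (x v / 2))
  | [], v, f, x => by simp [ev, str, lF]
  | d :: ds, 0, f, x => by
    show cas (x 0) d (fun i => ev ds (fun p => lF 1 d d 0 f ((d + 1) * p + i)) fun j => x (j + 1))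
      = _
    have h1 : cas (x 0) d (fun i => ev ds (fun p => lF 1 d d 0 f ((d + 1) * p + i))
          fun j => x (j + 1))
        = cas (x 0) d fun i => 2 ^ (d - i) * tr i (fun l => ev ds (fun p => f ((d + 1) * p + l))
          fun j => x (j + 1)) 0 := by
      refine cas_congr fun i hi => ?_
      rw [← ev_tr, ← ev_mul]
      refine ev_congr fun p _ => ?_
      rw [lF_blk1 d 0 f i hi, if_pos ⟨Nat.zero_le i, by omega⟩, Nat.zero_add, Nat.sub_zero]
    rw [h1, cas_L]
    show _ = 2 ^ d * cas (Function.update x 0 (x 0 / 2) 0) d _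
    rw [Function.update_self]
    rfl
  | d :: ds, v + 1, f, x => by
    show cas (x 0) d (fun i => ev ds (fun p => lF ((d + 1) * (str ds v).1) (str ds v).2
      (str ds v).2 0 f ((d + 1) * p + i)) fun j => x (j + 1)) = _
    have h1 : cas (x 0) d (fun i => ev ds (fun p => lF ((d + 1) * (str ds v).1) (str ds v).2
          (str ds v).2 0 f ((d + 1) * p + i)) fun j => x (j + 1))
        = cas (x 0) d fun i => 2 ^ (str ds v).2 * ev ds (fun p => f ((d + 1) * p + i))
          (Function.update (fun j => x (j + 1)) v (x (v + 1) / 2)) := by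
      refine cas_congr fun i hi => ?_
      rw [← ev_L ds v]
      exact ev_congr fun p _ => lF_blk hi _ 0 f
    rw [h1, cas_mul]
    show _ = 2 ^ (str ds v).2 * cas (Function.update x (v + 1) (x (v + 1) / 2) 0) d _
    rw [Function.update_of_ne (Nat.succ_ne_zero v).symm]
    congr 2
    funext i
    congr 1
    funext j
    by_cases h : j = v
    · subst h
      rw [Function.update_self, Function.update_self]
    · rw [Function.update_of_ne h, Function.update_of_ne (by omega)]

/-! ### casts and bounds -/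

lemma rF_cast {s d : ℕ} : ∀ (j : ℕ) (g : ℕ → ℕ) (p : ℕ),
    ((rF s d j g p : ℕ) : ℝ) = rF s d j (fun q => (g q : ℝ)) p
  | 0, g, p => by
    unfold rF
    split_ifs <;> simp
  | j + 1, g, p => by
    unfold rF
    rw [Nat.cast_add, rF_cast j]
    congr 1
    · split_ifs <;> simp
    · congr 1
      funext q
      push_cast
      rfl

lemma lF_cast {s d : ℕ} : ∀ (j k : ℕ) (g : ℕ → ℕ) (p : ℕ),
    ((lF s d j k g p : ℕ) : ℝ) = lF s d j k (fun q => (g q : ℝ)) p
  | 0, k, g, p => by
    unfold lF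
    split_ifs <;> simp
  | j + 1, k, g, p => by
    unfold lF
    rw [Nat.cast_add, lF_cast j]
    congr 1
    · split_ifs <;> simp
    · congr 1
      funext q
      push_cast
      split_ifs <;> simp

lemma rF_bd {s d : ℕ} : ∀ (j c : ℕ) (g : ℕ → ℕ) (p : ℕ), (∀ q, g q ≤ c) →
    (j < p / s % (d + 1) → rF s d j g p = 0) ∧ rF s d j g p ≤ 2 ^ j * c
  | 0, c, g, p, h => by
    unfold rF
    refine ⟨fun h1 => if_neg (by omega), ?_⟩
    split_ifs
    · simpa using h p
    · exact Nat.zero_le _
  | j + 1, c, g, p, h => by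
    obtain ⟨h1, h2⟩ := rF_bd (s := s) (d := d) j (2 * c) (fun q => g q + g (q + s)) p fun q => by
      have := h q
      have := h (q + s)
      omega
    unfold rF
    constructor
    · intro h3
      rw [h1 (by omega), if_neg (by omega)]
    · split_ifs with h3
      · rw [h1 (by omega), add_zero]
        exact Nat.mul_le_mul_left _ (h p)
      · rw [zero_add]
        refine h2.trans_eq ?_
        rw [pow_succ]
        ring

lemma lF_bd {s d : ℕ} : ∀ (j k c : ℕ) (g : ℕ → ℕ) (p : ℕ), (∀ q, g q ≤ c) →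
    (p / s % (d + 1) < k → lF s d j k g p = 0) ∧ lF s d j k g p ≤ 2 ^ j * c
  | 0, k, c, g, p, h => by
    unfold lF
    refine ⟨fun h1 => if_neg (by omega), ?_⟩
    split_ifs
    · simpa using h p
    · exact Nat.zero_le _
  | j + 1, k, c, g, p, h => by
    obtain ⟨h1, h2⟩ := lF_bd (s := s) (d := d) j (k + 1) (2 * c)
      (fun q => g q + if q < s then 0 else g (q - s)) p fun q => by
      have h3 := h q
      have h4 := h (q - s)
      show g q + (if q < s then 0 else g (q - s)) ≤ 2 * c
      split_ifs <;> omega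
    unfold lF
    constructor
    · intro h3
      rw [h1 (by omega), if_neg (by omega)]
    · split_ifs with h3
      · rw [h1 (by omega), add_zero]
        exact Nat.mul_le_mul_left _ (h p)
      · rw [zero_add]
        refine h2.trans_eq ?_
        rw [pow_succ]
        ring

end Pool.Agent.Lib.MP_f04ccf_co.Bern
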