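import Pool.Agent.Lib.MP_f04ccf_co.B.Chk

/-!
Polynomials in monomial form on a box, and the final theorem `pos`.
-/

set_option autoImplicit false

namespace Pool.Agent.Lib.MP_f04ccf_co.Bern

open Finset

/-! ### one variable -/

lemma cas_up1 {y : ℝ} : ∀ (d : ℕ) (c : ℕ → ℝ),
    cas y (d + 1) (fun i => ((d : ℝ) + 1 - i) * c i) = (d + 1) * (1 - y) * cas y d c
  | 0, c => by simp [cas]
  | d + 1, c => by
    have h1 := cas_up1 (y := y) d c
    have h2 := cas_up1 (y := y) d fun i => c (i + 1)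
    have e1 : cas y (d + 1) (fun i => (((d + 1 : ℕ) : ℝ) + 1 - i) * c i)
        = (d + 1) * (1 - y) * cas y d c + cas y (d + 1) c := by
      rw [← h1, ← cas_add]
      congr 1
      funext i
      push_cast
      ring
    have e2 : cas y (d + 1) (fun i => (((d + 1 : ℕ) : ℝ) + 1 - ((i + 1 : ℕ) : ℝ)) * c (i + 1))
        = (d + 1) * (1 - y) * cas y d fun i => c (i + 1) := by
      rw [← h2]
      congr 1
      funext i
      push_cast
      ring
    have e3 : cas y (d + 1) c = (1 - y) * cas y d c + y * cas y d fun i => c (i + 1) := rfl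
    show (1 - y) * cas y (d + 1) (fun i => (((d + 1 : ℕ) : ℝ) + 1 - i) * c i)
      + y * cas y (d + 1) (fun i => (((d + 1 : ℕ) : ℝ) + 1 - ((i + 1 : ℕ) : ℝ)) * c (i + 1)) = _
    rw [e1, e2]
    push_cast
    have : ((d : ℝ) + 1 + 1) * (1 - y) * cas y (d + 1) c
        = (1 - y) * ((d + 1) * ((1 - y) * cas y d c + y * cas y d fun i => c (i + 1))
          + cas y (d + 1) c) := by
      rw [← e3]
      ring
    rw [this]
    ring

lemma cas_up2 {y : ℝ} : ∀ (d : ℕ) (c : ℕ → ℝ),
    cas y (d + 1) (fun i => (i : ℝ) * c (i - 1)) = (d + 1) * y * cas y d c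
  | 0, c => by simp [cas]
  | d + 1, c => by
    have h1 := cas_up2 (y := y) d c
    have h2 := cas_up2 (y := y) d fun i => c (i + 1)
    have e2 : cas y (d + 1) (fun i => ((i + 1 : ℕ) : ℝ) * c (i + 1 - 1))
        = (d + 1) * y * cas y d (fun i => c (i + 1)) + cas y (d + 1) c := by
      rw [← h2, ← cas_add]
      refine cas_congr fun i _ => ?_
      rcases Nat.eq_zero_or_pos i with h | h
      · subst h
        simp
      · have e3 : i - 1 + 1 = i := by omega
        rw [e3, Nat.add_sub_cancel]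
        push_cast
        ring
    have e3 : cas y (d + 1) c = (1 - y) * cas y d c + y * cas y d fun i => c (i + 1) := rfl
    show (1 - y) * cas y (d + 1) (fun i => (i : ℝ) * c (i - 1))
      + y * cas y (d + 1) (fun i => ((i + 1 : ℕ) : ℝ) * c (i + 1 - 1)) = _
    rw [h1, e2]
    push_cast
    have : ((d : ℝ) + 1 + 1) * y * cas y (d + 1) c
        = y * ((d + 1) * ((1 - y) * cas y d c + y * cas y d fun i => c (i + 1))
          + cas y (d + 1) c) := by
      rw [← e3]
      ring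
    rw [this]
    ring

/-- multiplication with `a (1 - u) + b u` -/
def up (a b d : ℕ) (c : ℕ → ℕ) (i : ℕ) : ℕ := (d + 1 - i) * a * c i + i * b * c (i - 1)

/-- the Bernstein coefficients of `d ! δ ^ d x ^ e`, `δ x = a (1 - u) + b u` -/
def cf (a b δ e : ℕ) : ℕ → ℕ → ℕ
  | 0, _ => 1
  | d + 1, i => match Nat.blt d e with
    | true => up a b d (cf a b δ e d) i
    | false => up δ δ d (cf a b δ e d) i

lemma cas_up {y : ℝ} (a b d : ℕ) (c : ℕ → ℕ) :
    cas y (d + 1) (fun i => (up a b d c i : ℝ))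
      = (d + 1) * (a * (1 - y) + b * y) * cas y d fun i => (c i : ℝ) := by
  have h1 := cas_up1 (y := y) d fun i => (a : ℝ) * c i
  have h2 := cas_up2 (y := y) d fun i => (b : ℝ) * c i
  rw [cas_mul] at h1 h2
  have h3 : cas y (d + 1) (fun i => (up a b d c i : ℝ))
      = cas y (d + 1) (fun i => ((d : ℝ) + 1 - i) * (a * c i))
        + cas y (d + 1) fun i => (i : ℝ) * (b * c (i - 1)) := by
    rw [← cas_add]
    refine cas_congr fun i hi => ?_
    unfold up
    rw [Nat.cast_add, Nat.cast_mul, Nat.cast_mul, Nat.cast_mul, Nat.cast_mul, Nat.cast_sub hi]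
    push_cast
    ring
  rw [h3, h1, h2]
  ring

lemma cas_cf {y : ℝ} {a b δ e : ℕ} : ∀ d : ℕ, cas y d (fun i => (cf a b δ e d i : ℝ))
      = (d.factorial : ℝ) * (a * (1 - y) + b * y) ^ min d e * (δ : ℝ) ^ (d - e)
  | 0 => by simp [cas, cf]
  | d + 1 => by
    have ih := cas_cf (y := y) (a := a) (b := b) (δ := δ) (e := e) d
    by_cases h : d < e
    · have h1 : Nat.blt d e = true := by rw [Nat.blt_eq]; exact h
      have h2 : (fun i => (cf a b δ e (d + 1) i : ℝ)) = fun i => (up a b d (cf a b δ e d) i : ℝ) := by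
        funext i
        simp only [cf, h1]
      rw [h2, cas_up, ih, min_eq_left (by omega), min_eq_left (by omega),
        Nat.sub_eq_zero_of_le (by omega), Nat.sub_eq_zero_of_le (by omega), Nat.factorial_succ,
        pow_succ]
      push_cast
      ring
    · have h1 : Nat.blt d e = false := by
        rw [← Bool.not_eq_true, Nat.blt_eq]
        exact h
      have h2 : (fun i => (cf a b δ e (d + 1) i : ℝ)) = fun i => (up δ δ d (cf a b δ e d) i : ℝ) := by
        funext i
        simp only [cf, h1]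
      have e1 : d + 1 - e = d - e + 1 := by omega
      rw [h2, cas_up, ih, min_eq_right (by omega), min_eq_right (by omega), e1, Nat.factorial_succ,
        pow_succ (δ : ℝ)]
      push_cast
      ring

/-! ### computable sums -/

/-- `pk`, computable -/
def pkc (W : ℕ) (f : ℕ → ℕ) : ℕ → ℕ
  | 0 => 0
  | n + 1 => Nat.add (pkc W f n) (Nat.mul (f n) (Nat.pow 2 (Nat.mul W n)))

lemma pkc_eq (W : ℕ) (f : ℕ → ℕ) : ∀ n, pkc W f n = pk W f n
  | 0 => rfl
  | n + 1 => by
    rw [pk_succ, ← pkc_eq W f n]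
    rfl

/-- the sum of the places -/
def smc (f : ℕ → ℕ) : ℕ → ℕ
  | 0 => 0
  | n + 1 => Nat.add (smc f n) (f n)

lemma le_smc (f : ℕ → ℕ) : ∀ n, ∀ i < n, f i ≤ smc f n
  | 0, i, hi => by omega
  | n + 1, i, hi => by
    show f i ≤ smc f n + f n
    rcases Nat.lt_succ_iff_lt_or_eq.1 hi with h | h
    · exact (le_smc f n i h).trans (Nat.le_add_right _ _)
    · rw [h]
      exact Nat.le_add_left _ _

/-! ### monomials -/

/-- a monomial, packed -/
def mk : ℕ → List ℕ → List (ℕ × ℕ × ℕ) → List ℕ → ℕ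
  | W, d :: ds, (a, b, δ) :: bx, e :: es =>
    Nat.mul (pkc W (cf a b δ e d) (d + 1)) (mk (Nat.mul W (d + 1)) ds bx es)
  | _, _, _, _ => 1

/-- the sum of the places -/
def tt : List ℕ → List (ℕ × ℕ × ℕ) → List ℕ → ℕ
  | d :: ds, (a, b, δ) :: bx, e :: es => Nat.mul (smc (cf a b δ e d) (d + 1)) (tt ds bx es)
  | _, _, _ => 1

/-- the places -/
def mF : List ℕ → List (ℕ × ℕ × ℕ) → List ℕ → ℕ → ℕ
  | d :: ds, (a, b, δ) :: bx, e :: es, p =>
    cf a b δ e d (p % (d + 1)) * mF ds bx es (p / (d + 1))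
  | _, _, _, _ => 1

/-- the lists have the same length, the exponents are at most the degrees -/
def shp : List ℕ → List (ℕ × ℕ × ℕ) → List ℕ → Bool
  | [], [], [] => true
  | d :: ds, (_, _, δ) :: bx, e :: es => Nat.ble e d && (Nat.blt 0 δ && shp ds bx es)
  | _, _, _ => false

/-- the value of a monomial -/
def mon : List ℕ → List ℝ → ℝ
  | e :: es, x :: l => x ^ e * mon es l
  | _, _ => 1

/-- the point `l` of the box belongs to the point `u` of the cube -/
def Bx : List (ℕ × ℕ × ℕ) → (ℕ → ℝ) → List ℝ → Prop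
  | (a, b, δ) :: bx, u, x :: l =>
    (δ : ℝ) * x = a * (1 - u 0) + b * u 0 ∧ Bx bx (fun j => u (j + 1)) l
  | [], _, [] => True
  | _, _, _ => False

/-- the constant -/
def K : List ℕ → List (ℕ × ℕ × ℕ) → ℝ
  | d :: ds, (_, _, δ) :: bx => (d.factorial : ℝ) * (δ : ℝ) ^ d * K ds bx
  | _, _ => 1

lemma pk_prod {W d : ℕ} (c g : ℕ → ℕ) : ∀ L : ℕ,
    pk W (fun p => c (p % (d + 1)) * g (p / (d + 1))) ((d + 1) * L)
      = pk W c (d + 1) * pk (W * (d + 1)) g L
  | 0 => by simp [pk]
  | L + 1 => by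
    have h1 : (d + 1) * (L + 1) = (d + 1) * L + (d + 1) := by ring
    rw [h1, pk_append, pk_prod c g L]
    have h2 : pk W (fun p => c (((d + 1) * L + p) % (d + 1)) * g (((d + 1) * L + p) / (d + 1)))
        (d + 1) = g L * pk W c (d + 1) := by
      rw [pk_mul]
      refine pk_congr fun p hp => ?_
      rw [Nat.mul_add_mod, Nat.mod_eq_of_lt hp, Nat.mul_add_div (Nat.succ_pos d),
        Nat.div_eq_of_lt hp, add_zero, mul_comm]
    have h3 : W * ((d + 1) * L) = W * (d + 1) * L := by ring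
    rw [h2, pk_succ (W * (d + 1)) g L, h3]
    ring

lemma mk_eq : ∀ (W : ℕ) (ds : List ℕ) (bx : List (ℕ × ℕ × ℕ)) (es : List ℕ),
    shp ds bx es = true → mk W ds bx es = pk W (mF ds bx es) (len ds)
  | W, [], [], [], _ => by simp [mk, len, mF, pk]
  | W, d :: ds, (a, b, δ) :: bx, e :: es, h => by
    have h1 := (Bool.and_eq_true_iff.1 (Bool.and_eq_true_iff.1 h).2).2
    have h2 := mk_eq (W * (d + 1)) ds bx es h1
    have h3 := pk_prod (W := W) (d := d) (cf a b δ e d) (mF ds bx es) (len ds)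
    show pkc W (cf a b δ e d) (d + 1) * mk (W * (d + 1)) ds bx es = _
    rw [pkc_eq, h2, ← h3]
    rfl
  | _, [], [], _ :: _, h => by simp [shp] at h
  | _, [], _ :: _, _, h => by simp [shp] at h
  | _, _ :: _, [], _, h => by simp [shp] at h
  | _, _ :: _, (_, _, _) :: _, [], h => by simp [shp] at h

lemma mF_le : ∀ (ds : List ℕ) (bx : List (ℕ × ℕ × ℕ)) (es : List ℕ) (p : ℕ), p < len ds →
    mF ds bx es p ≤ tt ds bx es
  | d :: ds, (a, b, δ) :: bx, e :: es, p, hp => by
    have h1 : p / (d + 1) < len ds := Nat.div_lt_of_lt_mul hp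
    show cf a b δ e d (p % (d + 1)) * mF ds bx es (p / (d + 1))
      ≤ smc (cf a b δ e d) (d + 1) * tt ds bx es
    exact Nat.mul_le_mul (le_smc _ _ _ (Nat.mod_lt _ (Nat.succ_pos d))) (mF_le ds bx es _ h1)
  | [], _, _, _, _ => by simp [mF, tt]
  | _ :: _, [], _, _, _ => by simp [mF, tt]
  | _ :: _, (_, _, _) :: _, [], _, _ => by simp [mF, tt]

lemma ev_mF : ∀ (ds : List ℕ) (bx : List (ℕ × ℕ × ℕ)) (es : List ℕ) (u : ℕ → ℝ) (l : List ℝ),
    shp ds bx es = true → Bx bx u l →
    ev ds (fun p => (mF ds bx es p : ℝ)) u = K ds bx * mon es l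
  | [], [], [], _, [], _, _ => by simp [ev, mF, K, mon]
  | d :: ds, (a, b, δ) :: bx, e :: es, u, x :: l, h, hx => by
    obtain ⟨hx1, hx2⟩ := hx
    have he : e ≤ d := Nat.le_of_ble_eq_true (Bool.and_eq_true_iff.1 h).1
    have hs := (Bool.and_eq_true_iff.1 (Bool.and_eq_true_iff.1 h).2).2
    have ih := ev_mF ds bx es (fun j => u (j + 1)) l hs hx2
    show cas (u 0) d (fun i => ev ds (fun p => ((cf a b δ e d (((d + 1) * p + i) % (d + 1))
      * mF ds bx es (((d + 1) * p + i) / (d + 1)) : ℕ) : ℝ)) fun j => u (j + 1)) = _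
    have h1 : cas (u 0) d (fun i => ev ds (fun p => ((cf a b δ e d (((d + 1) * p + i) % (d + 1))
          * mF ds bx es (((d + 1) * p + i) / (d + 1)) : ℕ) : ℝ)) fun j => u (j + 1))
        = cas (u 0) d fun i => (K ds bx * mon es l) * (cf a b δ e d i : ℝ) := by
      refine cas_congr fun i hi => ?_
      rw [← ih, mul_comm, ← ev_mul]
      refine ev_congr fun p _ => ?_
      rw [Nat.mul_add_mod, Nat.mod_eq_of_lt (by omega), Nat.mul_add_div (Nat.succ_pos d),
        Nat.div_eq_of_lt (show i < d + 1 by omega), add_zero]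
      push_cast
      rfl
    rw [h1, cas_mul, cas_cf, min_eq_right he, ← hx1]
    show _ = (d.factorial : ℝ) * (δ : ℝ) ^ d * K ds bx * (x ^ e * mon es l)
    have h2 : (δ : ℝ) ^ d = (δ : ℝ) ^ e * (δ : ℝ) ^ (d - e) := by
      rw [← pow_add]
      congr 1
      omega
    rw [h2, mul_pow]
    ring
  | [], [], [], _, _ :: _, _, hx => by simp [Bx] at hx
  | _ :: _, (_, _, _) :: _, _ :: _, _, [], _, hx => by simp [Bx] at hx
  | [], [], _ :: _, _, _, h, _ => by simp [shp] at h
  | [], _ :: _, _, _, _, h, _ => by simp [shp] at h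
  | _ :: _, [], _, _, _, h, _ => by simp [shp] at h
  | _ :: _, (_, _, _) :: _, [], _, _, h, _ => by simp [shp] at h

lemma K_pos : ∀ (ds : List ℕ) (bx : List (ℕ × ℕ × ℕ)) (es : List ℕ), shp ds bx es = true →
    0 < K ds bx
  | [], [], [], _ => by simp [K]
  | d :: ds, (a, b, δ) :: bx, e :: es, h => by
    have h0 := Bool.and_eq_true_iff.1 (Bool.and_eq_true_iff.1 h).2
    have h1 : 0 < δ := by
      have := h0.1
      rw [Nat.blt_eq] at this
      exact this
    have h2 := K_pos ds bx es h0.2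
    show 0 < (d.factorial : ℝ) * (δ : ℝ) ^ d * K ds bx
    have h3 : (0 : ℝ) < δ := by exact_mod_cast h1
    have h4 : (0 : ℝ) < d.factorial := by exact_mod_cast d.factorial_pos
    positivity
  | [], [], _ :: _, h => by simp [shp] at h
  | [], _ :: _, _, h => by simp [shp] at h
  | _ :: _, [], _, h => by simp [shp] at h
  | _ :: _, (_, _, _) :: _, [], h => by simp [shp] at h

/-! ### polynomials with nonnegative coefficients -/

/-- packed -/
def sm (W : ℕ) (ds : List ℕ) (bx : List (ℕ × ℕ × ℕ)) : List (ℕ × List ℕ) → ℕ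
  | [] => 0
  | (c, es) :: P => Nat.add (Nat.mul c (mk W ds bx es)) (sm W ds bx P)

/-- a bound of the places -/
def st (ds : List ℕ) (bx : List (ℕ × ℕ × ℕ)) : List (ℕ × List ℕ) → ℕ
  | [] => 0
  | (c, es) :: P => Nat.add (Nat.mul c (tt ds bx es)) (st ds bx P)

/-- the places -/
def sF (ds : List ℕ) (bx : List (ℕ × ℕ × ℕ)) : List (ℕ × List ℕ) → ℕ → ℕ
  | [], _ => 0
  | (c, es) :: P, p => c * mF ds bx es p + sF ds bx P p

/-- the shapes -/
def shs (ds : List ℕ) (bx : List (ℕ × ℕ × ℕ)) : List (ℕ × List ℕ) → Bool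
  | [] => true
  | (_, es) :: P => shp ds bx es && shs ds bx P

/-- the value -/
def evS : List (ℕ × List ℕ) → List ℝ → ℝ
  | [], _ => 0
  | (c, es) :: P, l => c * mon es l + evS P l

lemma sm_eq {W : ℕ} {ds : List ℕ} {bx : List (ℕ × ℕ × ℕ)} : ∀ {P : List (ℕ × List ℕ)},
    shs ds bx P = true → sm W ds bx P = pk W (sF ds bx P) (len ds)
  | [], _ => by
    unfold sm
    exact (sum_eq_zero fun p _ => by simp [sF]).symm
  | (c, es) :: P, h => by
    obtain ⟨h1, h2⟩ := Bool.and_eq_true_iff.1 h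
    show c * mk W ds bx es + sm W ds bx P = _
    rw [mk_eq W ds bx es h1, sm_eq h2, pk_mul, pk_add]
    rfl

lemma sF_le {ds : List ℕ} {bx : List (ℕ × ℕ × ℕ)} {p : ℕ} (hp : p < len ds) :
    ∀ P : List (ℕ × List ℕ), sF ds bx P p ≤ st ds bx P
  | [] => le_rfl
  | (c, es) :: P => Nat.add_le_add (Nat.mul_le_mul_left _ (mF_le ds bx es p hp)) (sF_le hp P)

lemma ev_sF {ds : List ℕ} {bx : List (ℕ × ℕ × ℕ)} {u : ℕ → ℝ} {l : List ℝ} (hx : Bx bx u l) :
    ∀ {P : List (ℕ × List ℕ)}, shs ds bx P = true →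
    ev ds (fun p => (sF ds bx P p : ℝ)) u = K ds bx * evS P l
  | [], _ => by
    have h := ev_mul (a := 0) (ds := ds) (f := fun _ => (0 : ℝ)) (x := u)
    simp only [mul_zero, zero_mul] at h
    simp [sF, evS, h]
  | (c, es) :: P, h => by
    obtain ⟨h1, h2⟩ := Bool.and_eq_true_iff.1 h
    have e1 : (fun p => ((sF ds bx ((c, es) :: P) p : ℕ) : ℝ))
        = fun p => (c : ℝ) * (mF ds bx es p : ℝ) + (sF ds bx P p : ℝ) := by
      funext p
      simp only [sF]
      push_cast
      rfl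
    rw [e1, ev_add, ev_mul, ev_mF ds bx es u l h1 hx, ev_sF hx h2]
    show _ = K ds bx * (c * mon es l + evS P l)
    ring

/-- the input: bits, degrees, positive and negative part -/
structure In where
  w : ℕ
  ds : List ℕ
  P : List (ℕ × List ℕ)
  Q : List (ℕ × List ℕ)

/-- the polynomial on the cube -/
def ini (bx : List (ℕ × ℕ × ℕ)) (A : In) : Pl :=
  ⟨A.w, A.ds, st A.ds bx A.Q, Nat.sub (Nat.add (sm A.w A.ds bx A.P)
    (Nat.mul (st A.ds bx A.Q) (ones A.w (len A.ds)))) (sm A.w A.ds bx A.Q)⟩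

/-- the input is good -/
def okI (bx : List (ℕ × ℕ × ℕ)) (vs : List ℕ) (A : In) : Bool :=
  shs A.ds bx A.P && (shs A.ds bx A.Q && (Nat.beq (bx.length) A.ds.length &&
    (Nat.ble (Nat.log2 (Nat.add (st A.ds bx A.P) (st A.ds bx A.Q)) + 2 + bud A.ds vs) A.w
      && bx.all fun q => Nat.blt 0 q.2.2)))

/-- the constant is positive -/
lemma K_pos' : ∀ (ds : List ℕ) (bx : List (ℕ × ℕ × ℕ)), (bx.all fun q => Nat.blt 0 q.2.2) = true →
    0 < K ds bx
  | [], _, _ => by simp [K]
  | _ :: _, [], _ => by simp [K]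
  | d :: ds, (a, b, δ) :: bx, h => by
    rw [List.all_cons, Bool.and_eq_true_iff, Nat.blt_eq] at h
    have h2 := K_pos' ds bx h.2
    show 0 < (d.factorial : ℝ) * (δ : ℝ) ^ d * K ds bx
    have h3 : (0 : ℝ) < δ := by exact_mod_cast h.1
    have h4 : (0 : ℝ) < d.factorial := by exact_mod_cast d.factorial_pos
    positivity

lemma okI.ok {bx : List (ℕ × ℕ × ℕ)} {vs : List ℕ} {A : In} (h : okI bx vs A = true) :
    Ok vs (ini bx A) ∧ ∀ (u : ℕ → ℝ) (l : List ℝ), Bx bx u l →
      val (ini bx A) u = K A.ds bx * (evS A.P l - evS A.Q l) := by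
  unfold okI at h
  rw [Bool.and_eq_true_iff, Bool.and_eq_true_iff, Bool.and_eq_true_iff, Bool.and_eq_true_iff] at h
  obtain ⟨hP, hQ, -, hw, -⟩ := h
  have hw' : Nat.log2 (st A.ds bx A.P + st A.ds bx A.Q) + 2 + bud A.ds vs ≤ A.w :=
    Nat.le_of_ble_eq_true hw
  set b := Nat.log2 (st A.ds bx A.P + st A.ds bx A.Q) + 1 with hb
  have hlt : st A.ds bx A.P + st A.ds bx A.Q < 2 ^ b := Nat.lt_log2_self
  have hw0 : 0 < A.w := by omega
  have hR : Rep b (ini bx A) (fun p => if p < len A.ds then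
      sF A.ds bx A.P p + st A.ds bx A.Q - sF A.ds bx A.Q p else 0) := by
    refine ⟨hw0, fun p => ?_, fun p hp => if_neg (Nat.not_lt.2 hp), ?_, ?_⟩
    · show (if p < len A.ds then _ else 0) < _
      split_ifs with hp
      · have := sF_le (bx := bx) hp A.P
        omega
      · positivity
    · show st A.ds bx A.Q < _
      omega
    · show sm A.w A.ds bx A.P + st A.ds bx A.Q * ones A.w (len A.ds) - sm A.w A.ds bx A.Q = _
      rw [sm_eq hP, sm_eq hQ, ones_eq hw0, pk_mul, pk_add]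
      have : pk A.w (fun p => sF A.ds bx A.P p + st A.ds bx A.Q * 1) (len A.ds)
          = pk A.w (fun p => if p < len A.ds then
            sF A.ds bx A.P p + st A.ds bx A.Q - sF A.ds bx A.Q p else 0) (len A.ds)
            + pk A.w (sF A.ds bx A.Q) (len A.ds) := by
        rw [pk_add]
        refine pk_congr fun p hp => ?_
        have := sF_le (bx := bx) hp A.Q
        rw [if_pos hp]
        omega
      rw [this, Nat.add_sub_cancel]
      rfl
  refine ⟨⟨b, _, hR, ?_⟩, fun u l hx => ?_⟩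
  · show b + bud A.ds vs + 1 ≤ A.w
    omega
  · rw [hR.val (show b ≤ A.w by omega)]
    have h1 : ev A.ds (fun p => (((if p < len A.ds then
          sF A.ds bx A.P p + st A.ds bx A.Q - sF A.ds bx A.Q p else 0 : ℕ)) : ℝ)) u
        = ev A.ds (fun p => ((sF A.ds bx A.P p : ℝ) + (-1) * (sF A.ds bx A.Q p : ℝ))
            + (st A.ds bx A.Q : ℝ) * 1) u := ev_congr fun p hp => by
      have := sF_le (bx := bx) hp A.Q
      rw [if_pos hp, Nat.cast_sub (by omega)]
      push_cast
      ring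
    have hone : ev A.ds (fun _ => (1 : ℝ)) u = 1 := by
      have : ∀ (ds : List ℕ) (x : ℕ → ℝ), ev ds (fun _ => (1 : ℝ)) x = 1 := by
        intro ds
        induction ds with
        | nil => intro x; rfl
        | cons d ds ih =>
          intro x
          show cas (x 0) d (fun _ => ev ds (fun _ => (1 : ℝ)) fun j => x (j + 1)) = 1
          rw [ih]
          have : ∀ (y : ℝ) (d : ℕ), cas y d (fun _ => (1 : ℝ)) = 1 := by
            intro y d
            induction d with
            | zero => rfl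
            | succ d ih =>
              show (1 - y) * cas y d (fun _ => (1 : ℝ)) + y * cas y d (fun _ => (1 : ℝ)) = 1
              rw [ih]
              ring
          exact this _ _
      exact this _ _
    show ev A.ds _ u - ((st A.ds bx A.Q : ℕ) : ℝ) = _
    rw [h1, ev_add, ev_add, ev_mul, ev_mul, hone, ev_sF hx hP, ev_sF hx hQ]
    ring

/-- the point is in the box -/
def InB : List (ℕ × ℕ × ℕ) → List ℝ → Prop
  | (a, b, δ) :: bx, x :: l => ((a : ℝ) ≤ δ * x ∧ (δ : ℝ) * x ≤ b) ∧ InB bx l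
  | [], [] => True
  | _, _ => False

lemma InB.ex : ∀ (bx : List (ℕ × ℕ × ℕ)) (l : List ℝ), InB bx l →
    ∃ u : ℕ → ℝ, (∀ j, 0 ≤ u j ∧ u j ≤ 1) ∧ Bx bx u l
  | [], [], _ => ⟨fun _ => 0, fun _ => ⟨le_rfl, zero_le_one⟩, trivial⟩
  | (a, b, δ) :: bx, x :: l, h => by
    obtain ⟨⟨h1, h2⟩, h3⟩ := h
    obtain ⟨u, hu, hB⟩ := InB.ex bx l h3
    have hab : (a : ℝ) ≤ b := h1.trans h2
    refine ⟨fun j => match j with
      | 0 => ((δ : ℝ) * x - a) / (b - a)
      | j + 1 => u j, fun j => ?_, ?_, hB⟩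
    · rcases j with _ | j
      · show 0 ≤ ((δ : ℝ) * x - a) / (b - a) ∧ ((δ : ℝ) * x - a) / (b - a) ≤ 1
        exact ⟨div_nonneg (by linarith) (by linarith),
          div_le_one_of_le₀ (by linarith) (by linarith)⟩
      · exact hu j
    · show (δ : ℝ) * x = a * (1 - ((δ : ℝ) * x - a) / (b - a)) + b * (((δ : ℝ) * x - a) / (b - a))
      rcases hab.eq_or_lt with h | h
      · rw [h, sub_self, div_zero]
        linarith
      · have : (b : ℝ) - a ≠ 0 := by linarith
        field_simp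
        ring
  | [], _ :: _, h => by simp [InB] at h
  | (_, _, _) :: _, [], h => by simp [InB] at h

/-- the run -/
def run (bx : List (ℕ × ℕ × ℕ)) (vs : List ℕ) (A : In) (G : List In) : Bool :=
  okI bx vs A && (G.all (okI bx vs) && chk vs (ini bx A) (G.map (ini bx)))

/-- **positivity of a polynomial on the part of a box where finitely many polynomials are
nonnegative** -/
theorem pos {bx : List (ℕ × ℕ × ℕ)} {vs : List ℕ} {A : In} {G : List In}
    (h : run bx vs A G = true) {l : List ℝ} (hl : InB bx l)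
    (hG : ∀ g ∈ G, evS g.Q l ≤ evS g.P l) : evS A.Q l < evS A.P l := by
  obtain ⟨hA, h'⟩ := Bool.and_eq_true_iff.1 h
  obtain ⟨hG', hc⟩ := Bool.and_eq_true_iff.1 h'
  obtain ⟨u, hu, hB⟩ := hl.ex
  have hG2 := List.all_eq_true.1 hG'
  have hK : ∀ B : In, okI bx vs B = true → 0 < K B.ds bx := by
    intro B hB
    unfold okI at hB
    rw [Bool.and_eq_true_iff, Bool.and_eq_true_iff, Bool.and_eq_true_iff,
      Bool.and_eq_true_iff] at hB
    exact K_pos' _ _ hB.2.2.2.2
  have h1 := chk_sound vs (ini bx A) (G.map (ini bx)) (okI.ok hA).1 (fun g hg => by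
    obtain ⟨g', h3, rfl⟩ := List.mem_map.1 hg
    exact (okI.ok (hG2 g' h3)).1) hc u hu fun g hg => by
    obtain ⟨g', h3, rfl⟩ := List.mem_map.1 hg
    rw [(okI.ok (hG2 g' h3)).2 u l hB]
    exact mul_nonneg (hK _ (hG2 g' h3)).le (sub_nonneg.2 (hG g' h3))
  rw [(okI.ok hA).2 u l hB] at h1
  have h2 := (pos_iff_pos_of_mul_pos h1).1 (hK A hA)
  linarith

end Pool.Agent.Lib.MP_f04ccf_co.Bern
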