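import Mathlib

/-!
Packed numbers: `pk w f N` has the places `f 0, .., f (N - 1)` of `w` bits each. The halves of a Bernstein
tensor in this form (`lN`, `rN`) and the tests of all places (`allg`, `alll`).
-/

set_option autoImplicit false

namespace Pool.Agent.Lib.MP_f04ccf_co.Bern

open Finset

/-- the number with the places `f p`, `p < N`, of `w` bits -/
def pk (w : ℕ) (f : ℕ → ℕ) (N : ℕ) : ℕ := ∑ p ∈ range N, f p * 2 ^ (w * p)

lemma pk_succ (w : ℕ) (f : ℕ → ℕ) (N : ℕ) : pk w f (N + 1) = pk w f N + f N * 2 ^ (w * N) :=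
  sum_range_succ _ _

lemma pk_zero (w : ℕ) (f : ℕ → ℕ) : pk w f 0 = 0 := rfl

lemma pk_lt {w : ℕ} {f : ℕ → ℕ} {N : ℕ} (h : ∀ p < N, f p < 2 ^ w) : pk w f N < 2 ^ (w * N) := by
  induction N with
  | zero => simp [pk]
  | succ N ih =>
    rw [pk_succ]
    have h1 := ih fun p hp => h p (by omega)
    have h2 := h N (by omega)
    calc pk w f N + f N * 2 ^ (w * N) < 2 ^ (w * N) + f N * 2 ^ (w * N) := by omega
      _ = (f N + 1) * 2 ^ (w * N) := by ring
      _ ≤ 2 ^ w * 2 ^ (w * N) := Nat.mul_le_mul_right _ h2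
      _ = 2 ^ (w * (N + 1)) := by rw [← pow_add]; congr 1; ring

lemma pk_add (w : ℕ) (f g : ℕ → ℕ) (N : ℕ) :
    pk w f N + pk w g N = pk w (fun p => f p + g p) N := by
  unfold pk
  rw [← sum_add_distrib]
  exact sum_congr rfl fun p _ => by ring

lemma pk_mul (w c : ℕ) (f : ℕ → ℕ) (N : ℕ) : c * pk w f N = pk w (fun p => c * f p) N := by
  unfold pk
  rw [mul_sum]
  exact sum_congr rfl fun p _ => by ring

lemma pk_congr {w : ℕ} {f g : ℕ → ℕ} {N : ℕ} (h : ∀ p < N, f p = g p) : pk w f N = pk w g N :=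
  sum_congr rfl fun p hp => by rw [h p (mem_range.1 hp)]

lemma pk_append (w : ℕ) (f : ℕ → ℕ) (s N : ℕ) :
    pk w f (s + N) = pk w f s + 2 ^ (w * s) * pk w (fun p => f (s + p)) N := by
  unfold pk
  rw [sum_range_add, mul_sum]
  congr 1
  refine sum_congr rfl fun p _ => ?_
  rw [mul_add, pow_add]
  ring

lemma pk_ext {w : ℕ} {f : ℕ → ℕ} {N L : ℕ} (hL : N ≤ L) (h : ∀ p, N ≤ p → f p = 0) :
    pk w f L = pk w f N := by
  obtain ⟨m, rfl⟩ := Nat.exists_eq_add_of_le hL
  rw [pk_append]
  have : pk w (fun p => f (N + p)) m = 0 := sum_eq_zero fun p _ => by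
    show f (N + p) * 2 ^ (w * p) = 0
    rw [h _ (by omega), zero_mul]
  rw [this, mul_zero, add_zero]

lemma pk_shr {w : ℕ} {f : ℕ → ℕ} {N s : ℕ} (hf : ∀ p, f p < 2 ^ w) (h0 : ∀ p, N ≤ p → f p = 0) :
    pk w f N >>> (w * s) = pk w (fun p => f (p + s)) N := by
  rw [← pk_ext (L := s + N) (by omega) h0, pk_append, Nat.shiftRight_eq_div_pow,
    Nat.add_mul_div_left _ _ (by positivity), Nat.div_eq_of_lt (pk_lt fun p _ => hf p), zero_add]
  exact pk_congr fun p _ => by rw [add_comm]

/-- the shifted places -/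
def shl (s : ℕ) (f : ℕ → ℕ) : ℕ → ℕ := fun p => if p < s then 0 else f (p - s)

lemma pk_shl {w : ℕ} {f : ℕ → ℕ} {N s : ℕ} : pk w f N <<< (w * s) = pk w (shl s f) (N + s) := by
  rw [add_comm N s, pk_append, Nat.shiftLeft_eq, mul_comm]
  have h1 : pk w (shl s f) s = 0 := sum_eq_zero fun p hp => by
    have : p < s := mem_range.1 hp
    simp [shl, this]
  have h2 : pk w (fun p => shl s f (s + p)) N = pk w f N := pk_congr fun p _ => by
    simp [shl]
  rw [h1, h2, zero_add]

/-- `land` by blocks -/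
lemma land_block {n a b c d : ℕ} (hb : b < 2 ^ n) (hd : d < 2 ^ n) :
    (2 ^ n * a + b) &&& (2 ^ n * c + d) = 2 ^ n * (a &&& c) + (b &&& d) := by
  have h : (b &&& d) < 2 ^ n := lt_of_le_of_lt Nat.and_le_left hb
  refine Nat.eq_of_testBit_eq fun i => ?_
  rw [Nat.testBit_and, Nat.testBit_two_pow_mul_add _ hb, Nat.testBit_two_pow_mul_add _ hd,
    Nat.testBit_two_pow_mul_add _ h]
  split_ifs
  · rw [Nat.testBit_and]
  · rw [Nat.testBit_and]

lemma pk_land {w : ℕ} {f g : ℕ → ℕ} {N : ℕ} (hf : ∀ p < N, f p < 2 ^ w)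
    (hg : ∀ p < N, g p < 2 ^ w) :
    pk w f N &&& pk w g N = pk w (fun p => f p &&& g p) N := by
  induction N with
  | zero => simp [pk]
  | succ N ih =>
    rw [pk_succ, pk_succ, pk_succ, ← ih (fun p hp => hf p (by omega)) fun p hp => hg p (by omega)]
    have h1 : pk w f N < 2 ^ (w * N) := pk_lt fun p hp => hf p (by omega)
    have h2 : pk w g N < 2 ^ (w * N) := pk_lt fun p hp => hg p (by omega)
    have h3 := land_block (a := f N) (c := g N) h1 h2
    rw [add_comm (pk w f N), add_comm (pk w g N), mul_comm (f N), mul_comm (g N), h3]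
    ring

lemma pk_inj {w : ℕ} {f g : ℕ → ℕ} {N : ℕ} (hf : ∀ p < N, f p < 2 ^ w)
    (hg : ∀ p < N, g p < 2 ^ w) (h : pk w f N = pk w g N) : ∀ p < N, f p = g p := by
  induction N with
  | zero => intro p hp; omega
  | succ N ih =>
    rw [pk_succ, pk_succ] at h
    have h1 : pk w f N < 2 ^ (w * N) := pk_lt fun p hp => hf p (by omega)
    have h2 : pk w g N < 2 ^ (w * N) := pk_lt fun p hp => hg p (by omega)
    have h3 : f N = g N := by
      have e1 : (pk w f N + f N * 2 ^ (w * N)) / 2 ^ (w * N) = f N := by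
        rw [Nat.add_mul_div_right _ _ (by positivity), Nat.div_eq_of_lt h1, zero_add]
      have e2 : (pk w g N + g N * 2 ^ (w * N)) / 2 ^ (w * N) = g N := by
        rw [Nat.add_mul_div_right _ _ (by positivity), Nat.div_eq_of_lt h2, zero_add]
      rw [← e1, h, e2]
    rw [h3] at h
    have h4 := ih (fun p hp => hf p (by omega)) (fun p hp => hg p (by omega)) (by omega)
    intro p hp
    rcases Nat.lt_succ_iff_lt_or_eq.1 hp with h5 | h5
    · exact h4 p h5
    · rw [h5, h3]

/-- `1` in each place -/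
def ones (w N : ℕ) : ℕ := (2 ^ (w * N) - 1) / (2 ^ w - 1)

lemma ones_eq {w N : ℕ} (hw : 0 < w) : ones w N = pk w (fun _ => 1) N := by
  unfold ones
  have h2 : 2 ≤ 2 ^ w := by
    calc 2 = 2 ^ 1 := rfl
      _ ≤ 2 ^ w := Nat.pow_le_pow_right (by omega) hw
  rw [pow_mul, ← Nat.geomSum_eq h2]
  unfold pk
  exact sum_congr rfl fun p _ => by rw [one_mul, pow_mul]

/-- all bits of the places `p < N` with `p / s % (d + 1) = k` -/
def msk (w s d N k : ℕ) : ℕ :=
  (2 ^ (w * s) - 1) * 2 ^ (w * s * k) * ((2 ^ (w * N) - 1) / (2 ^ (w * s * (d + 1)) - 1))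

/-- the places of the mask -/
def mf (w s d k : ℕ) : ℕ → ℕ := fun p => if p / s % (d + 1) = k then 2 ^ w - 1 else 0

lemma pk_full (w N : ℕ) : pk w (fun _ => 2 ^ w - 1) N = 2 ^ (w * N) - 1 := by
  induction N with
  | zero => simp [pk]
  | succ N ih =>
    rw [pk_succ, ih]
    have h1 : 1 ≤ 2 ^ (w * N) := Nat.one_le_two_pow
    have h2 : 1 ≤ 2 ^ w := Nat.one_le_two_pow
    have h3 : 2 ^ (w * (N + 1)) = 2 ^ w * 2 ^ (w * N) := by rw [← pow_add]; congr 1; ring
    rw [h3, Nat.sub_mul, one_mul]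
    have h4 : 2 ^ (w * N) ≤ 2 ^ w * 2 ^ (w * N) := Nat.le_mul_of_pos_left _ h2
    omega

lemma mf_block {w s d k : ℕ} (hs : 0 < s) (hk : k ≤ d) :
    pk w (mf w s d k) (s * (d + 1)) = (2 ^ (w * s) - 1) * 2 ^ (w * s * k) := by
  obtain ⟨m, rfl⟩ := Nat.exists_eq_add_of_le hk
  have e1 : s * (k + m + 1) = s * k + (s + s * m) := by ring
  rw [e1, pk_append, pk_append]
  have h1 : pk w (mf w s (k + m) k) (s * k) = 0 := by
    refine sum_eq_zero fun p hp => ?_
    have hp' : p < s * k := mem_range.1 hp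
    have h2 : p / s < k := Nat.div_lt_of_lt_mul hp'
    have h3 : p / s % (k + m + 1) = p / s := Nat.mod_eq_of_lt (by omega)
    unfold mf
    rw [h3, if_neg (by omega), zero_mul]
  have h2 : pk w (fun p => mf w s (k + m) k (s * k + p)) s = 2 ^ (w * s) - 1 := by
    rw [← pk_full]
    refine pk_congr fun p hp => ?_
    have h3 : (s * k + p) / s = k := by
      rw [Nat.mul_add_div hs, Nat.div_eq_of_lt hp, add_zero]
    unfold mf
    rw [h3, Nat.mod_eq_of_lt (by omega), if_pos rfl]
  have h3 : pk w (fun p => mf w s (k + m) k (s * k + (s + p))) (s * m) = 0 := by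
    refine sum_eq_zero fun p hp => ?_
    have hp' : p < s * m := mem_range.1 hp
    have h4 : (s * k + (s + p)) / s = k + 1 + p / s := by
      have : s * k + (s + p) = s * (k + 1) + p := by ring
      rw [this, Nat.mul_add_div hs]
    have h5 : p / s < m := Nat.div_lt_of_lt_mul hp'
    show mf w s (k + m) k (s * k + (s + p)) * 2 ^ (w * p) = 0
    unfold mf
    rw [h4]
    generalize p / s = q at h5
    rw [Nat.mod_eq_of_lt (show k + 1 + q < k + m + 1 by omega),
      if_neg (show ¬ k + 1 + q = k by omega), zero_mul]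
  rw [h1, h2, h3, mul_zero, add_zero, zero_add, mul_comm]
  congr 2
  ring

lemma msk_eq {w s d k m : ℕ} (hw : 0 < w) (hs : 0 < s) (hk : k ≤ d) :
    msk w s d (s * (d + 1) * m) k = pk w (mf w s d k) (s * (d + 1) * m) := by
  have hB : 2 ≤ 2 ^ (w * s * (d + 1)) := by
    calc 2 = 2 ^ 1 := rfl
      _ ≤ _ := Nat.pow_le_pow_right (by omega) (by
        have : 0 < w * s * (d + 1) := by positivity
        omega)
  have e1 : 2 ^ (w * (s * (d + 1) * m)) = (2 ^ (w * s * (d + 1))) ^ m := by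
    rw [← pow_mul]
    congr 1
    ring
  unfold msk
  rw [e1, ← Nat.geomSum_eq hB, ← mf_block hs hk]
  clear e1
  induction m with
  | zero => simp [pk]
  | succ m ih =>
    have e2 : s * (d + 1) * (m + 1) = s * (d + 1) * m + s * (d + 1) := by ring
    rw [sum_range_succ, mul_add, ih, e2, pk_append]
    have e3 : pk w (fun p => mf w s d k (s * (d + 1) * m + p)) (s * (d + 1))
        = pk w (mf w s d k) (s * (d + 1)) := by
      refine pk_congr fun p _ => ?_
      have e4 : (s * (d + 1) * m + p) / s = (d + 1) * m + p / s := by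
        have : s * (d + 1) * m + p = s * ((d + 1) * m) + p := by ring
        rw [this, Nat.mul_add_div hs]
      unfold mf
      rw [e4, Nat.mul_add_mod]
    rw [e3, mul_comm (2 ^ (w * (s * (d + 1) * m)))]
    congr 2
    rw [← pow_mul]
    congr 1
    ring

lemma land_mf {w s d k p a : ℕ} (ha : a < 2 ^ w) :
    a &&& mf w s d k p = if p / s % (d + 1) = k then a else 0 := by
  unfold mf
  split_ifs
  · rw [Nat.and_two_pow_sub_one_eq_mod, Nat.mod_eq_of_lt ha]
  · exact Nat.and_zero a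

/-- a mask applied to a number with more places -/
lemma pk_mask {w s d k m L : ℕ} {f : ℕ → ℕ} (hw : 0 < w) (hs : 0 < s) (hk : k ≤ d)
    (hL : s * (d + 1) * m ≤ L) (hf : ∀ p, f p < 2 ^ w) :
    pk w f L &&& msk w s d (s * (d + 1) * m) k
      = pk w (fun p => if p / s % (d + 1) = k then f p else 0) (s * (d + 1) * m) := by
  set N := s * (d + 1) * m with hN
  have h1 : msk w s d N k = pk w (fun p => if p < N then mf w s d k p else 0) L := by
    rw [pk_ext (N := N) hL fun p hp => if_neg (by omega), msk_eq hw hs hk]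
    exact pk_congr fun p hp => by rw [if_pos hp]
  have hmf : ∀ p, mf w s d k p < 2 ^ w := by
    intro p
    have : 1 ≤ 2 ^ w := Nat.one_le_two_pow
    unfold mf
    split_ifs <;> omega
  rw [h1, pk_land (fun p _ => hf p) (fun p _ => by
    split_ifs
    · exact hmf p
    · positivity)]
  have h2 : pk w (fun p => f p &&& if p < N then mf w s d k p else 0) L
      = pk w (fun p => f p &&& if p < N then mf w s d k p else 0) N :=
    pk_ext hL fun p hp => by rw [if_neg (by omega)]; exact Nat.and_zero _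
  rw [h2]
  refine pk_congr fun p hp => ?_
  rw [if_pos hp, land_mf (hf p)]

/-! ### the halves -/

/-- left half -/
def lN (w s d N : ℕ) : ℕ → ℕ → ℕ → ℕ
  | 0, k, g => Nat.land g (msk w s d N k)
  | j + 1, k, g => Nat.add (Nat.land (Nat.shiftLeft g (j + 1)) (msk w s d N k))
      (lN w s d N j (k + 1) (Nat.add g (Nat.shiftLeft g (w * s))))

/-- right half -/
def rN (w s d N : ℕ) : ℕ → ℕ → ℕ
  | 0, g => Nat.land g (msk w s d N 0)
  | j + 1, g => Nat.add (Nat.land (Nat.shiftLeft g (j + 1)) (msk w s d N (j + 1)))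
      (rN w s d N j (Nat.add g (Nat.shiftRight g (w * s))))

/-- left half, places -/
def lF {α : Type*} [Semiring α] (s d : ℕ) : ℕ → ℕ → (ℕ → α) → ℕ → α
  | 0, k, g => fun p => if p / s % (d + 1) = k then g p else 0
  | j + 1, k, g => fun p => (if p / s % (d + 1) = k then 2 ^ (j + 1) * g p else 0)
      + lF s d j (k + 1) (fun p => g p + if p < s then 0 else g (p - s)) p

/-- right half, places -/
def rF {α : Type*} [Semiring α] (s d : ℕ) : ℕ → (ℕ → α) → ℕ → α
  | 0, g => fun p => if p / s % (d + 1) = 0 then g p else 0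
  | j + 1, g => fun p => (if p / s % (d + 1) = j + 1 then 2 ^ (j + 1) * g p else 0)
      + rF s d j (fun p => g p + g (p + s)) p

lemma shl_pow {w : ℕ} {f : ℕ → ℕ} {N j : ℕ} :
    Nat.shiftLeft (pk w f N) j = pk w (fun p => 2 ^ j * f p) N := by
  show pk w f N <<< j = _
  rw [Nat.shiftLeft_eq, mul_comm, pk_mul]

lemma rN_eq {w s d m : ℕ} (hw : 0 < w) (hs : 0 < s) : ∀ (j b : ℕ) (g : ℕ → ℕ), j ≤ d → b + j ≤ w →
    (∀ p, g p < 2 ^ b) → (∀ p, s * (d + 1) * m ≤ p → g p = 0) →
    rN w s d (s * (d + 1) * m) j (pk w g (s * (d + 1) * m))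
      = pk w (rF s d j g) (s * (d + 1) * m) := by
  intro j
  induction j with
  | zero =>
    intro b g _ hb hg _
    show pk w g (s * (d + 1) * m) &&& _ = _
    rw [pk_mask hw hs (Nat.zero_le d) le_rfl fun p => (hg p).trans_le
      (Nat.pow_le_pow_right (by omega) (by omega))]
    rfl
  | succ j ih =>
    intro b g hj hb hg h0
    have hgw : ∀ p, g p < 2 ^ w := fun p => (hg p).trans_le (Nat.pow_le_pow_right (by omega) (by omega))
    have h1 : Nat.land (Nat.shiftLeft (pk w g (s * (d + 1) * m)) (j + 1))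
        (msk w s d (s * (d + 1) * m) (j + 1))
        = pk w (fun p => if p / s % (d + 1) = j + 1 then 2 ^ (j + 1) * g p else 0)
          (s * (d + 1) * m) := by
      rw [shl_pow]
      refine pk_mask hw hs hj le_rfl fun p => ?_
      calc 2 ^ (j + 1) * g p < 2 ^ (j + 1) * 2 ^ b := Nat.mul_lt_mul_of_pos_left (hg p) (by positivity)
        _ = 2 ^ (b + (j + 1)) := by rw [← pow_add]; congr 1; ring
        _ ≤ 2 ^ w := Nat.pow_le_pow_right (by omega) hb
    have h2 : Nat.add (pk w g (s * (d + 1) * m)) (Nat.shiftRight (pk w g (s * (d + 1) * m)) (w * s))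
        = pk w (fun p => g p + g (p + s)) (s * (d + 1) * m) := by
      show pk w g (s * (d + 1) * m) + pk w g (s * (d + 1) * m) >>> (w * s) = _
      rw [pk_shr hgw h0, pk_add]
    have h3 := ih (b + 1) (fun p => g p + g (p + s)) (by omega) (by omega) (fun p => by
      have := hg p
      have := hg (p + s)
      rw [pow_succ]
      omega) fun p hp => by rw [h0 p hp, h0 (p + s) (by omega)]
    show Nat.land (Nat.shiftLeft (pk w g (s * (d + 1) * m)) (j + 1))
        (msk w s d (s * (d + 1) * m) (j + 1)) + rN w s d (s * (d + 1) * m) j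
        (Nat.add (pk w g (s * (d + 1) * m)) (Nat.shiftRight (pk w g (s * (d + 1) * m)) (w * s))) = _
    rw [h1, h2, h3, pk_add]
    rfl

lemma lN_eq {w s d m : ℕ} (hw : 0 < w) (hs : 0 < s) : ∀ (j b k : ℕ) (g : ℕ → ℕ) (L : ℕ), k + j ≤ d →
    b + j ≤ w → (∀ p, g p < 2 ^ b) → s * (d + 1) * m ≤ L → (∀ p, L ≤ p → g p = 0) →
    lN w s d (s * (d + 1) * m) j k (pk w g L)
      = pk w (lF s d j k g) (s * (d + 1) * m) := by
  intro j
  induction j with
  | zero =>
    intro b k g L hk hb hg hL _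
    show pk w g L &&& _ = _
    rw [pk_mask hw hs (by omega) hL fun p => (hg p).trans_le
      (Nat.pow_le_pow_right (by omega) (by omega))]
    rfl
  | succ j ih =>
    intro b k g L hk hb hg hL h0
    have h1 : Nat.land (Nat.shiftLeft (pk w g L) (j + 1)) (msk w s d (s * (d + 1) * m) k)
        = pk w (fun p => if p / s % (d + 1) = k then 2 ^ (j + 1) * g p else 0)
          (s * (d + 1) * m) := by
      rw [shl_pow]
      refine pk_mask hw hs (by omega) hL fun p => ?_
      calc 2 ^ (j + 1) * g p < 2 ^ (j + 1) * 2 ^ b := Nat.mul_lt_mul_of_pos_left (hg p) (by positivity)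
        _ = 2 ^ (b + (j + 1)) := by rw [← pow_add]; congr 1; ring
        _ ≤ 2 ^ w := Nat.pow_le_pow_right (by omega) hb
    have h2 : Nat.add (pk w g L) (Nat.shiftLeft (pk w g L) (w * s))
        = pk w (fun p => g p + if p < s then 0 else g (p - s)) (L + s) := by
      show pk w g L + pk w g L <<< (w * s) = _
      rw [pk_shl, ← pk_ext (N := L) (L := L + s) (by omega) h0, pk_add]
      rfl
    have h3 := ih (b + 1) (k + 1) (fun p => g p + if p < s then 0 else g (p - s)) (L + s)
      (by omega) (by omega) (fun p => by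
        have h4 := hg p
        have h5 := hg (p - s)
        rw [pow_succ]
        show g p + (if p < s then 0 else g (p - s)) < _
        split_ifs <;> omega) (by omega) fun p hp => by
        show g p + (if p < s then 0 else g (p - s)) = 0
        rw [h0 p (by omega), if_neg (by omega), h0 (p - s) (by omega)]
    show Nat.land (Nat.shiftLeft (pk w g L) (j + 1)) (msk w s d (s * (d + 1) * m) k)
        + lN w s d (s * (d + 1) * m) j (k + 1)
        (Nat.add (pk w g L) (Nat.shiftLeft (pk w g L) (w * s))) = _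
    rw [h1, h2, h3, pk_add]
    rfl

/-! ### the tests -/

/-- all places are larger than `M` -/
def allg (w N M X : ℕ) : Bool :=
  Nat.beq (Nat.land (Nat.sub (Nat.add X (Nat.mul (2 ^ (w - 1)) (ones w N)))
    (Nat.mul (M + 1) (ones w N))) (Nat.mul (2 ^ (w - 1)) (ones w N)))
    (Nat.mul (2 ^ (w - 1)) (ones w N))

/-- all places are smaller than `M` -/
def alll (w N M X : ℕ) : Bool :=
  Nat.beq (Nat.land (Nat.sub (Nat.add (Nat.mul M (ones w N)) (Nat.mul (2 ^ (w - 1)) (ones w N)))
    (Nat.add X (ones w N))) (Nat.mul (2 ^ (w - 1)) (ones w N)))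
    (Nat.mul (2 ^ (w - 1)) (ones w N))

lemma top_bit {w a : ℕ} (h : a &&& 2 ^ (w - 1) = 2 ^ (w - 1)) : 2 ^ (w - 1) ≤ a := by
  rw [← h]
  exact Nat.and_le_left

lemma allg_sound {w N M : ℕ} {f : ℕ → ℕ} (hw : 0 < w) (hf : ∀ p, f p < 2 ^ (w - 1))
    (hM : M < 2 ^ (w - 1)) (h : allg w N M (pk w f N) = true) : ∀ p < N, M < f p := by
  have h1 := Nat.eq_of_beq_eq_true h
  have e0 : (2 : ℕ) ^ w = 2 ^ (w - 1) + 2 ^ (w - 1) := by
    obtain ⟨v, rfl⟩ := Nat.exists_eq_succ_of_ne_zero hw.ne'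
    rw [pow_succ, Nat.succ_sub_one]
    ring
  have eH : Nat.mul (2 ^ (w - 1)) (ones w N) = pk w (fun _ => 2 ^ (w - 1)) N := by
    show 2 ^ (w - 1) * ones w N = _
    rw [ones_eq hw, pk_mul]
    exact pk_congr fun p _ => mul_one _
  have eM : Nat.mul (M + 1) (ones w N) = pk w (fun _ => M + 1) N := by
    show (M + 1) * ones w N = _
    rw [ones_eq hw, pk_mul]
    exact pk_congr fun p _ => mul_one _
  have e1 : Nat.sub (Nat.add (pk w f N) (Nat.mul (2 ^ (w - 1)) (ones w N)))
      (Nat.mul (M + 1) (ones w N)) = pk w (fun p => f p + 2 ^ (w - 1) - (M + 1)) N := by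
    rw [eH, eM]
    show pk w f N + pk w (fun _ => 2 ^ (w - 1)) N - pk w (fun _ => M + 1) N = _
    rw [pk_add]
    have : pk w (fun p => f p + 2 ^ (w - 1)) N
        = pk w (fun p => f p + 2 ^ (w - 1) - (M + 1)) N + pk w (fun _ => M + 1) N := by
      rw [pk_add]
      exact pk_congr fun p _ => by omega
    rw [this, Nat.add_sub_cancel]
  rw [e1, eH] at h1
  have h2 : pk w (fun p => f p + 2 ^ (w - 1) - (M + 1)) N &&& pk w (fun _ => 2 ^ (w - 1)) N
      = pk w (fun _ => 2 ^ (w - 1)) N := h1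
  rw [pk_land (fun p _ => by have := hf p; omega) (fun p _ => by
    have : 0 < 2 ^ (w - 1) := by positivity
    omega)] at h2
  intro p hp
  have h3 := pk_inj (fun p _ => by
    have h4 : (f p + 2 ^ (w - 1) - (M + 1)) &&& 2 ^ (w - 1) ≤ f p + 2 ^ (w - 1) - (M + 1) :=
      Nat.and_le_left
    have := hf p
    omega) (fun p _ => by
    have : 0 < 2 ^ (w - 1) := by positivity
    omega) h2 p hp
  have h4 := top_bit h3
  omega

lemma alll_sound {w N M : ℕ} {f : ℕ → ℕ} (hw : 0 < w) (hf : ∀ p, f p < 2 ^ (w - 1))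
    (hM : M < 2 ^ (w - 1)) (h : alll w N M (pk w f N) = true) : ∀ p < N, f p < M := by
  have h1 := Nat.eq_of_beq_eq_true h
  have e0 : (2 : ℕ) ^ w = 2 ^ (w - 1) + 2 ^ (w - 1) := by
    obtain ⟨v, rfl⟩ := Nat.exists_eq_succ_of_ne_zero hw.ne'
    rw [pow_succ, Nat.succ_sub_one]
    ring
  have eH : Nat.mul (2 ^ (w - 1)) (ones w N) = pk w (fun _ => 2 ^ (w - 1)) N := by
    show 2 ^ (w - 1) * ones w N = _
    rw [ones_eq hw, pk_mul]
    exact pk_congr fun p _ => mul_one _
  have eM : Nat.mul M (ones w N) = pk w (fun _ => M) N := by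
    show M * ones w N = _
    rw [ones_eq hw, pk_mul]
    exact pk_congr fun p _ => mul_one _
  have e1 : Nat.sub (Nat.add (Nat.mul M (ones w N)) (Nat.mul (2 ^ (w - 1)) (ones w N)))
      (Nat.add (pk w f N) (ones w N)) = pk w (fun p => M + 2 ^ (w - 1) - (f p + 1)) N := by
    rw [eH, eM, ones_eq hw]
    show pk w (fun _ => M) N + pk w (fun _ => 2 ^ (w - 1)) N - (pk w f N + pk w (fun _ => 1) N) = _
    rw [pk_add, pk_add]
    have : pk w (fun _ => M + 2 ^ (w - 1)) N
        = pk w (fun p => M + 2 ^ (w - 1) - (f p + 1)) N + pk w (fun p => f p + 1) N := by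
      rw [pk_add]
      exact pk_congr fun p _ => by
        have := hf p
        omega
    rw [this, Nat.add_sub_cancel]
  rw [e1, eH] at h1
  have h2 : pk w (fun p => M + 2 ^ (w - 1) - (f p + 1)) N &&& pk w (fun _ => 2 ^ (w - 1)) N
      = pk w (fun _ => 2 ^ (w - 1)) N := h1
  rw [pk_land (fun p _ => by omega) (fun p _ => by
    have : 0 < 2 ^ (w - 1) := by positivity
    omega)] at h2
  intro p hp
  have h3 := pk_inj (fun p _ => by
    have h4 : (M + 2 ^ (w - 1) - (f p + 1)) &&& 2 ^ (w - 1) ≤ M + 2 ^ (w - 1) - (f p + 1) :=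
      Nat.and_le_left
    omega) (fun p _ => by
    have : 0 < 2 ^ (w - 1) := by positivity
    omega) h2 p hp
  have h4 := top_bit h3
  have := hf p
  omega

end Pool.Agent.Lib.MP_f04ccf_co.Bern
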